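import Pool.Agent.R772.LV3

/-!
Locally form bounded potentials: from balls to the whole set, and passage to the limit.
-/

set_option autoImplicit false

open MeasureTheory Set Filter Topology
open scoped InnerProductSpace ContDiff ENNReal

namespace Pool.Agent.P8H36.EE

open H772R2.NS Pool.Agent.TH340.FF Pool.Agent.R462.HC Pool.Agent.R772.LI

variable {Ω : Set E3}

/-- the local form bound -/
structure FL (Ω : Set E3) (K B ρ : ℝ) (w : E3 → ℝ) : Prop where
  meas : AEMeasurable w (volume.restrict Ω)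
  nonneg : ∀ x, 0 ≤ w x
  bound : ∀ y ∈ Ω, ∀ φ : E3 → ℝ, ContDiff ℝ ∞ φ → HasCompactSupport φ →
    tsupport φ ⊆ Ω ∩ Metric.ball y ρ →
    ∫⁻ x in Ω, ENNReal.ofReal (w x * φ x ^ 2)
      ≤ ENNReal.ofReal (K * (∫ x, ‖fderiv ℝ φ x‖ ^ 2) + B * ∫ x, φ x ^ 2)

/-- the form bound for vector fields -/
theorem FL.vec {K B ρ : ℝ} (hK : 0 ≤ K) (hB : 0 ≤ B) {w : E3 → ℝ} (hw : FL Ω K B ρ w) {y : E3}
    (hy : y ∈ Ω) {Φ : E3 → E3} (h : ContDiff ℝ ∞ Φ) (hcm : HasCompactSupport Φ)
    (hs : tsupport Φ ⊆ Ω ∩ Metric.ball y ρ) :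
    ∫⁻ x in Ω, ENNReal.ofReal (w x * NN Φ x)
      ≤ ENNReal.ofReal (K * (∫ x, JJ Φ x) + B * ∫ x, NN Φ x) := by
  have hc : ∀ i, ContDiff ℝ ∞ (fun x => Φ x i) := contDiff_coord h
  have hcs : ∀ i, HasCompactSupport (fun x => Φ x i) := hasCompactSupport_coord hcm
  have hts : ∀ i, tsupport (fun x => Φ x i) ⊆ Ω ∩ Metric.ball y ρ := fun i => by
    refine (closure_mono ?_).trans hs
    intro x hx h0
    apply hx
    simp [h0]
  have hJi : ∀ i, ∀ x, ‖fderiv ℝ (fun y => Φ y i) x‖ ^ 2 = ∑ j, jac Φ x (i, j) ^ 2 := by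
    intro i x
    rw [norm_clm_sq]
    refine Finset.sum_congr rfl fun j _ => ?_
    rw [jac_eq_coord h]
  have hI : ∀ i, Integrable fun x => ‖fderiv ℝ (fun y => Φ y i) x‖ ^ 2 := by
    intro i
    have h1 : Continuous fun x => ‖fderiv ℝ (fun y => Φ y i) x‖ ^ 2 :=
      ((hc i).continuous_fderiv (by simp)).norm.pow 2
    refine h1.integrable_of_hasCompactSupport ?_
    exact ((hcs i).fderiv (𝕜 := ℝ)).comp_left (g := fun L : E3 →L[ℝ] ℝ => ‖L‖ ^ 2) (by simp)
  have hN : ∀ i, Integrable fun x => Φ x i ^ 2 := fun i =>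
    Continuous.integrable_of_hasCompactSupport (f := fun x => Φ x i ^ 2)
      ((hc i).continuous.pow 2) ((hcs i).comp_left (g := fun t : ℝ => t ^ 2) (by simp))
  have e1 : ∀ x, ENNReal.ofReal (w x * NN Φ x) = ∑ i, ENNReal.ofReal (w x * Φ x i ^ 2) := by
    intro x
    rw [← ENNReal.ofReal_sum_of_nonneg fun i _ => mul_nonneg (hw.nonneg x) (sq_nonneg _),
      ← Finset.mul_sum]
    rfl
  simp_rw [e1]
  have hms : ∀ i : Fin 3, AEMeasurable (fun x => ENNReal.ofReal (w x * Φ x i ^ 2))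
      (volume.restrict Ω) := fun i =>
    (hw.meas.mul ((hc i).continuous.pow 2).measurable.aemeasurable).ennreal_ofReal
  rw [lintegral_finsetSum' _ fun i _ => hms i]
  have e2 : ∫ x, JJ Φ x = ∑ i, ∫ x, ‖fderiv ℝ (fun y => Φ y i) x‖ ^ 2 := by
    rw [← integral_finsetSum _ fun i _ => hI i]
    refine integral_congr_ae (Eventually.of_forall fun x => ?_)
    simp only
    unfold JJ
    exact Finset.sum_congr rfl fun i _ => (hJi i x).symm
  have e3 : ∫ x, NN Φ x = ∑ i, ∫ x, Φ x i ^ 2 := by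
    rw [← integral_finsetSum _ fun i _ => hN i]
    rfl
  rw [e2, e3, Finset.mul_sum, Finset.mul_sum, ← Finset.sum_add_distrib,
    ENNReal.ofReal_sum_of_nonneg fun i _ => add_nonneg
      (mul_nonneg hK (integral_nonneg fun x => by positivity))
      (mul_nonneg hB (integral_nonneg fun x => sq_nonneg _))]
  exact Finset.sum_le_sum fun i _ => hw.bound y hy _ (hc i) (hcs i) (hts i)

/-- averaging -/
theorem lavg {μ : Measure E3} [SFinite μ] {F : E3 → ℝ≥0∞} (hF : AEMeasurable F μ)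
    {g : E3 → ℝ≥0∞} (hg : Measurable g) :
    ∫⁻ y, ∫⁻ x, F x * g (y - x) ∂μ = (∫⁻ x, F x ∂μ) * ∫⁻ z, g z := by
  have hm : AEMeasurable (fun p : E3 × E3 => F p.2 * g (p.1 - p.2)) (volume.prod μ) :=
    hF.comp_snd.mul (hg.comp (measurable_fst.sub measurable_snd)).aemeasurable
  rw [lintegral_lintegral_swap hm]
  have h1 : ∀ x, ∫⁻ y, F x * g (y - x) = F x * ∫⁻ z, g z := by
    intro x
    have h2 : Measurable fun y : E3 => g (y - x) := hg.comp (measurable_id.sub_const x)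
    rw [lintegral_const_mul _ h2, lintegral_sub_right_eq_self g x]
  simp_rw [h1]
  exact lintegral_mul_const'' _ hF

/-- one translate -/
theorem FL.tr {K B ρ : ℝ} (hK : 0 ≤ K) (hB : 0 ≤ B) (hρ : 0 < ρ) {w : E3 → ℝ}
    (hw : FL Ω K B (2 * ρ) w) {φ : E3 → E3} (hφ : IsTest Ω φ) (y : E3) :
    ∫⁻ x in Ω, ENNReal.ofReal (w x * NN φ x) * ENNReal.ofReal (h0 ρ (y - x))
      ≤ (∫⁻ x, ENNReal.ofReal (2 * K * JJ φ x + B * NN φ x) * ENNReal.ofReal (h0 ρ (y - x)))
        + ∫⁻ x, ENNReal.ofReal (2 * K * NN φ x) * ENNReal.ofReal (h1 ρ (y - x)) := by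
  by_cases hy : ∃ x₀ ∈ Ω, ‖y - x₀‖ < ρ
  · obtain ⟨x₀, hx₀, hxy⟩ := hy
    set χ : E3 → ℝ := fun x => bs ρ (y - x) with hχ
    have hχs : ContDiff ℝ ∞ χ := bs_sub_smooth ρ y
    have hsup : tsupport χ ⊆ Metric.ball x₀ (2 * ρ) := by
      have h1 : tsupport χ ⊆ Metric.closedBall y ρ := by
        refine closure_minimal (fun x hx => ?_) Metric.isClosed_closedBall
        by_contra hcon
        apply hx
        rw [Metric.mem_closedBall, not_le, dist_comm, dist_eq_norm] at hcon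
        exact bs_zero hρ hcon.le
      refine h1.trans fun x hx => ?_
      rw [Metric.mem_closedBall] at hx
      rw [Metric.mem_ball]
      calc dist x x₀ ≤ dist x y + dist y x₀ := dist_triangle _ _ _
        _ < ρ + ρ := by
          rw [dist_eq_norm y x₀]
          linarith
        _ = 2 * ρ := by ring
    set Φ : E3 → E3 := fun x => χ x • φ x with hΦ
    have s1 : ContDiff ℝ ∞ Φ := hχs.smul hφ.smooth
    have s2 : HasCompactSupport Φ := HasCompactSupport.smul_left (f := χ) (f' := φ) hφ.compact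
    have s3 : tsupport Φ ⊆ Ω ∩ Metric.ball x₀ (2 * ρ) := by
      refine subset_inter ?_ ?_
      · exact (tsupport_smul_subset_right χ φ).trans hφ.supp
      · exact (tsupport_smul_subset_left χ φ).trans hsup
    have key := hw.vec hK hB hx₀ s1 s2 s3
    have hN := NN_nonneg φ
    have hJ := JJ_nonneg φ
    have e1 : ∀ x, ENNReal.ofReal (w x * NN Φ x)
        = ENNReal.ofReal (w x * NN φ x) * ENNReal.ofReal (h0 ρ (y - x)) := by
      intro x
      rw [← ENNReal.ofReal_mul (mul_nonneg (hw.nonneg x) (hN x)), hΦ, NN_mul]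
      congr 1
      show w x * (bs ρ (y - x) ^ 2 * NN φ x) = w x * NN φ x * (bs ρ (y - x) ^ 2)
      ring
    simp_rw [e1] at key
    refine key.trans ?_
    have c0 : Continuous fun x : E3 => h0 ρ (y - x) :=
      (h0_cont ρ).comp (continuous_const.sub continuous_id)
    have c1 : Continuous fun x : E3 => h1 ρ (y - x) :=
      (h1_cont ρ).comp (continuous_const.sub continuous_id)
    have iJ : Integrable fun x => h0 ρ (y - x) * JJ φ x := iJJ hφ c0
    have iN0 : Integrable fun x => h0 ρ (y - x) * NN φ x := iNN hφ c0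
    have iN : Integrable fun x => h1 ρ (y - x) * NN φ x := iNN hφ c1
    have i3 : Integrable fun x => 2 * (h0 ρ (y - x) * JJ φ x) := iJ.const_mul 2
    have i4 : Integrable fun x => 2 * (h1 ρ (y - x) * NN φ x) := iN.const_mul 2
    have l1 : ∫ x, JJ Φ x
        ≤ 2 * (∫ x, h0 ρ (y - x) * JJ φ x) + 2 * ∫ x, h1 ρ (y - x) * NN φ x := by
      rw [← integral_const_mul, ← integral_const_mul, ← integral_add i3 i4]
      refine integral_mono (JJ_int' s1 s2) (i3.add i4) fun x => ?_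
      have h3 := JJ_mul hχs hφ.smooth one_pos x
      have h4 : DD χ x = h1 ρ (y - x) := bs_sub_fderiv ρ y x
      rw [h4] at h3
      refine h3.trans (le_of_eq ?_)
      show (1 + 1) * (h0 ρ (y - x) * JJ φ x) + (1 + 1 / 1) * (h1 ρ (y - x) * NN φ x)
        = 2 * (h0 ρ (y - x) * JJ φ x) + 2 * (h1 ρ (y - x) * NN φ x)
      ring
    have l2 : ∫ x, NN Φ x = ∫ x, h0 ρ (y - x) * NN φ x :=
      integral_congr_ae (Eventually.of_forall fun x => NN_mul χ φ x)
    have e2 : ∀ x, ENNReal.ofReal (2 * K * JJ φ x + B * NN φ x) * ENNReal.ofReal (h0 ρ (y - x))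
        = ENNReal.ofReal (2 * K * (h0 ρ (y - x) * JJ φ x) + B * (h0 ρ (y - x) * NN φ x)) := by
      intro x
      have a1 := hN x
      have a2 := hJ x
      rw [← ENNReal.ofReal_mul (by positivity)]
      congr 1
      ring
    have e3 : ∀ x, ENNReal.ofReal (2 * K * NN φ x) * ENNReal.ofReal (h1 ρ (y - x))
        = ENNReal.ofReal (2 * K * (h1 ρ (y - x) * NN φ x)) := by
      intro x
      have a1 := hN x
      rw [← ENNReal.ofReal_mul (by positivity)]
      congr 1
      ring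
    have p0 : ∀ x, 0 ≤ h0 ρ (y - x) := fun x => h0_nonneg ρ _
    have p1 : ∀ x, 0 ≤ h1 ρ (y - x) := fun x => h1_nonneg ρ _
    have i5 : Integrable fun x => 2 * K * (h0 ρ (y - x) * JJ φ x) + B * (h0 ρ (y - x) * NN φ x) :=
      (iJ.const_mul (2 * K)).add (iN0.const_mul B)
    have i6 : Integrable fun x => 2 * K * (h1 ρ (y - x) * NN φ x) := iN.const_mul (2 * K)
    simp_rw [e2, e3]
    rw [← ofReal_integral_eq_lintegral_ofReal i5 (Eventually.of_forall fun x => by
        have a1 := hN x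
        have a2 := hJ x
        have a3 := p0 x
        positivity),
      ← ofReal_integral_eq_lintegral_ofReal i6 (Eventually.of_forall fun x => by
        have a1 := hN x
        have a3 := p1 x
        positivity)]
    have q1 : 0 ≤ ∫ x, (2 * K * (h0 ρ (y - x) * JJ φ x) + B * (h0 ρ (y - x) * NN φ x)) :=
      integral_nonneg fun x => by
        have a1 := hN x
        have a2 := hJ x
        have a3 := p0 x
        positivity
    have q2 : 0 ≤ ∫ x, 2 * K * (h1 ρ (y - x) * NN φ x) :=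
      integral_nonneg fun x => by
        have a1 := hN x
        have a3 := p1 x
        positivity
    rw [← ENNReal.ofReal_add q1 q2]
    refine ENNReal.ofReal_le_ofReal ?_
    rw [integral_add (iJ.const_mul (2 * K)) (iN0.const_mul B), integral_const_mul,
      integral_const_mul, integral_const_mul, l2]
    have := mul_le_mul_of_nonneg_left l1 hK
    linarith
  · have hz : ∫⁻ x in Ω, ENNReal.ofReal (w x * NN φ x) * ENNReal.ofReal (h0 ρ (y - x)) = 0 := by
      have e1 : ∀ x, ENNReal.ofReal (w x * NN φ x) * ENNReal.ofReal (h0 ρ (y - x)) = 0 := by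
        intro x
        by_cases hx : x ∈ Ω
        · have h2 : ρ ≤ ‖y - x‖ := by
            by_contra hcon
            exact hy ⟨x, hx, not_le.1 hcon⟩
          have h3 : h0 ρ (y - x) = 0 := by
            unfold h0
            rw [bs_zero hρ h2]
            ring
          rw [h3, ENNReal.ofReal_zero, mul_zero]
        · have h3 : NN φ x = 0 := by
            have : φ x = 0 := image_eq_zero_of_notMem_tsupport fun hc => hx (hφ.supp hc)
            unfold NN
            rw [this]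
            simp
          rw [h3, mul_zero, ENNReal.ofReal_zero, zero_mul]
      simp_rw [e1]
      exact lintegral_zero
    rw [hz]
    exact zero_le

/-- **From balls to the whole set.** -/
theorem FL.test (hΩ : MeasurableSet Ω) {K B ρ : ℝ} (hK : 0 ≤ K) (hB : 0 ≤ B) (hρ : 0 < ρ)
    {w : E3 → ℝ} (hw : FL Ω K B (2 * ρ) w) {φ : E3 → E3} (hφ : IsTest Ω φ) :
    ∫⁻ x in Ω, ENNReal.ofReal (w x * NN φ x)
      ≤ ENNReal.ofReal (2 * K * (∫ x, JJ φ x) + (B + 2 * K * (C0 * (ρ⁻¹) ^ 2)) * ∫ x, NN φ x) := by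
  have hN := NN_nonneg φ
  have hJ := JJ_nonneg φ
  have iJ := JJ_int' hφ.smooth hφ.compact
  have iN := NN_int' hφ.smooth hφ.compact
  have m0 : Measurable fun z : E3 => ENNReal.ofReal (h0 ρ z) := (h0_cont ρ).measurable.ennreal_ofReal
  have m1 : Measurable fun z : E3 => ENNReal.ofReal (h1 ρ z) := (h1_cont ρ).measurable.ennreal_ofReal
  have mw : AEMeasurable (fun x => ENNReal.ofReal (w x * NN φ x)) (volume.restrict Ω) :=
    (hw.meas.mul (NN_cont hφ.smooth).measurable.aemeasurable).ennreal_ofReal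
  have mA : Measurable fun x => ENNReal.ofReal (2 * K * JJ φ x + B * NN φ x) :=
    (((JJ_cont hφ.smooth).measurable.const_mul _).add
      ((NN_cont hφ.smooth).measurable.const_mul _)).ennreal_ofReal
  have mB : Measurable fun x => ENNReal.ofReal (2 * K * NN φ x) :=
    ((NN_cont hφ.smooth).measurable.const_mul _).ennreal_ofReal
  have key := lintegral_mono (μ := (volume : Measure E3)) fun y => hw.tr hK hB hρ hφ y
  have mI : Measurable fun y : E3 => ∫⁻ x, ENNReal.ofReal (2 * K * JJ φ x + B * NN φ x)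
      * ENNReal.ofReal (h0 ρ (y - x)) :=
    Measurable.lintegral_prod_right' (f := fun p : E3 × E3 =>
      ENNReal.ofReal (2 * K * JJ φ p.2 + B * NN φ p.2) * ENNReal.ofReal (h0 ρ (p.1 - p.2)))
      ((mA.comp measurable_snd).mul (m0.comp (measurable_fst.sub measurable_snd)))
  rw [lintegral_add_left mI, lavg mw m0, lavg mA.aemeasurable m0, lavg mB.aemeasurable m1] at key
  have hI := I0_pos
  have hρ3 : 0 < ρ ^ 3 := by positivity
  have v0 : ∫⁻ z, ENNReal.ofReal (h0 ρ z) = ENNReal.ofReal (ρ ^ 3 * I0) := by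
    rw [← ofReal_integral_eq_lintegral_ofReal (h0_int hρ)
      (Eventually.of_forall fun x => h0_nonneg ρ x), int_h0 hρ]
  have v1 : ∫⁻ z, ENNReal.ofReal (h1 ρ z) = ENNReal.ofReal (C0 * (ρ⁻¹) ^ 2)
      * ENNReal.ofReal (ρ ^ 3 * I0) := by
    rw [← ofReal_integral_eq_lintegral_ofReal (h1_int hρ)
      (Eventually.of_forall fun x => h1_nonneg ρ x), int_h1 hρ,
      ← ENNReal.ofReal_mul (by have := C0_nonneg; positivity)]
    congr 1
    have : C0 * I0 = I1 := div_mul_cancel₀ _ hI.ne'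
    rw [← this]
    ring
  have iA : Integrable fun x => 2 * K * JJ φ x + B * NN φ x := (iJ.const_mul _).add (iN.const_mul _)
  have pA : ∀ x, 0 ≤ 2 * K * JJ φ x + B * NN φ x := fun x => by
    have a1 := hN x
    have a2 := hJ x
    positivity
  have vA : ∫⁻ x, ENNReal.ofReal (2 * K * JJ φ x + B * NN φ x)
      = ENNReal.ofReal (2 * K * (∫ x, JJ φ x) + B * ∫ x, NN φ x) := by
    rw [← ofReal_integral_eq_lintegral_ofReal iA (Eventually.of_forall pA),
      integral_add (iJ.const_mul _) (iN.const_mul _), integral_const_mul, integral_const_mul]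
  have vB : ∫⁻ x, ENNReal.ofReal (2 * K * NN φ x) = ENNReal.ofReal (2 * K * ∫ x, NN φ x) := by
    rw [← ofReal_integral_eq_lintegral_ofReal (iN.const_mul _)
      (Eventually.of_forall fun x => by
        have a1 := hN x
        positivity), integral_const_mul]
  rw [v0, v1, vA, vB, ← mul_assoc, ← add_mul] at key
  have n0 : ENNReal.ofReal (ρ ^ 3 * I0) ≠ 0 := by
    rw [Ne, ENNReal.ofReal_eq_zero, not_le]
    positivity
  have key2 := (ENNReal.mul_le_mul_iff_left n0 ENNReal.ofReal_ne_top).1 key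
  refine key2.trans (le_of_eq ?_)
  have hJi : 0 ≤ ∫ x, JJ φ x := integral_nonneg hJ
  have hNi : 0 ≤ ∫ x, NN φ x := integral_nonneg hN
  have hC := C0_nonneg
  rw [← ENNReal.ofReal_mul (by positivity), ← ENNReal.ofReal_add (by positivity) (by positivity)]
  congr 1
  ring

/-- **The form bound on the whole space.** -/
theorem FL.graph (hΩ : MeasurableSet Ω) {K B ρ : ℝ} (hK : 0 ≤ K) (hB : 0 ≤ B) (hρ : 0 < ρ)
    {w : E3 → ℝ} (hw : FL Ω K B ρ w) {p : L2V Ω × L2M Ω} (hp : p ∈ graphW Ω) :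
    ∫⁻ x in Ω, ENNReal.ofReal (w x * ‖p.1 x‖ ^ 2)
      ≤ ENNReal.ofReal (2 * K * ‖p.2‖ ^ 2 + (B + 8 * K * C0 / ρ ^ 2) * ‖p.1‖ ^ 2) := by
  have hw' : FL Ω K B (2 * (ρ / 2)) w := by
    have e : 2 * (ρ / 2) = ρ := by ring
    rwa [e]
  have hp' : p ∈ closure (preW Ω : Set (L2V Ω × L2M Ω)) := by
    have := hp
    unfold graphW at this
    rwa [← SetLike.mem_coe, Submodule.topologicalClosure_coe] at this
  obtain ⟨q, hq, hlim⟩ := mem_closure_iff_seq_limit.mp hp'
  have h1 : Tendsto (fun n => (q n).1) atTop (𝓝 p.1) := (continuous_fst.tendsto p).comp hlim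
  have h2 : Tendsto (fun n => (q n).2) atTop (𝓝 p.2) := (continuous_snd.tendsto p).comp hlim
  have hmeas : TendstoInMeasure (volume.restrict Ω) (fun n => ((q n).1 : E3 → E3)) atTop p.1 :=
    tendstoInMeasure_of_tendsto_Lp h1
  obtain ⟨ns, hns, hae⟩ := hmeas.exists_seq_tendsto_ae
  have hns' := hns.tendsto_atTop
  have hbd : ∀ n, ∫⁻ x in Ω, ENNReal.ofReal (w x * ‖(q n).1 x‖ ^ 2)
      ≤ ENNReal.ofReal (2 * K * ‖(q n).2‖ ^ 2
        + (B + 8 * K * C0 / ρ ^ 2) * ‖(q n).1‖ ^ 2) := by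
    intro n
    obtain ⟨φ, k1, k2, k3⟩ := hq n
    have n1 : ‖(q n).1‖ ^ 2 = ∫ x, NN φ x := norm_test1 k1 k2
    have n2 : ‖(q n).2‖ ^ 2 = ∫ x, JJ φ x := norm_test2 k1 k3
    have e1 : ∫⁻ x in Ω, ENNReal.ofReal (w x * ‖(q n).1 x‖ ^ 2)
        = ∫⁻ x in Ω, ENNReal.ofReal (w x * NN φ x) := by
      refine lintegral_congr_ae ?_
      filter_upwards [k2] with x hx
      rw [hx, NN_eq]
    rw [e1, n1, n2]
    refine (hw'.test hΩ hK hB (half_pos hρ) k1).trans (le_of_eq ?_)
    congr 2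
    congr 1
    field_simp
    ring
  have hR : Tendsto (fun n => ENNReal.ofReal (2 * K * ‖(q (ns n)).2‖ ^ 2
        + (B + 8 * K * C0 / ρ ^ 2) * ‖(q (ns n)).1‖ ^ 2)) atTop
      (𝓝 (ENNReal.ofReal (2 * K * ‖p.2‖ ^ 2 + (B + 8 * K * C0 / ρ ^ 2) * ‖p.1‖ ^ 2))) := by
    have a1 : Tendsto (fun n => ‖(q (ns n)).1‖) atTop (𝓝 ‖p.1‖) :=
      (continuous_norm.tendsto _).comp (h1.comp hns')
    have a2 : Tendsto (fun n => ‖(q (ns n)).2‖) atTop (𝓝 ‖p.2‖) :=
      (continuous_norm.tendsto _).comp (h2.comp hns')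
    exact ENNReal.tendsto_ofReal (((a2.pow 2).const_mul _).add ((a1.pow 2).const_mul _))
  have hlimx : ∀ᵐ x ∂(volume.restrict Ω), ENNReal.ofReal (w x * ‖p.1 x‖ ^ 2)
      ≤ liminf (fun n => ENNReal.ofReal (w x * ‖(q (ns n)).1 x‖ ^ 2)) atTop := by
    filter_upwards [hae] with x hx
    have a1 : Tendsto (fun n => ENNReal.ofReal (w x * ‖(q (ns n)).1 x‖ ^ 2)) atTop
        (𝓝 (ENNReal.ofReal (w x * ‖p.1 x‖ ^ 2))) :=
      ENNReal.tendsto_ofReal (((hx.norm).pow 2).const_mul _)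
    exact a1.liminf_eq.ge
  calc ∫⁻ x in Ω, ENNReal.ofReal (w x * ‖p.1 x‖ ^ 2)
      ≤ ∫⁻ x in Ω, liminf (fun n => ENNReal.ofReal (w x * ‖(q (ns n)).1 x‖ ^ 2)) atTop :=
        lintegral_mono_ae hlimx
    _ ≤ liminf (fun n => ∫⁻ x in Ω, ENNReal.ofReal (w x * ‖(q (ns n)).1 x‖ ^ 2)) atTop := by
        refine lintegral_liminf_le' fun n => ?_
        exact (hw.meas.mul (((Lp.aestronglyMeasurable _).norm.aemeasurable).pow_const 2)).ennreal_ofReal
    _ ≤ liminf (fun n => ENNReal.ofReal (2 * K * ‖(q (ns n)).2‖ ^ 2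
        + (B + 8 * K * C0 / ρ ^ 2) * ‖(q (ns n)).1‖ ^ 2)) atTop :=
        liminf_le_liminf (Eventually.of_forall fun n => hbd (ns n))
    _ = _ := hR.liminf_eq

end Pool.Agent.P8H36.EE
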