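import Pool.Agent.R772.PubLV

/-!
Public definitions: locally form bounded potentials on space-time.
-/

set_option autoImplicit false

open MeasureTheory Set
open scoped InnerProductSpace ENNReal ContDiff

namespace Pool.Agent.P8H36.EE

open H772R2.NS.Pub

/-- The potential `w ≥ 0` is form bounded in the balls of radius `ρ` with center in `Ω`:
`∫_Ω w φ² ≤ K ∫ |∇φ|² + B ∫ φ²` for all smooth real functions `φ` with compact support in the
intersection of `Ω` with such a ball. -/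
structure LocForm (Ω : Set R3) (K B ρ : ℝ) (w : R3 → ℝ) : Prop where
  meas : AEMeasurable w (volume.restrict Ω)
  nonneg : ∀ x, 0 ≤ w x
  bound : ∀ y ∈ Ω, ∀ φ : R3 → ℝ, ContDiff ℝ ∞ φ → HasCompactSupport φ →
    tsupport φ ⊆ Ω ∩ Metric.ball y ρ →
    ∫⁻ x in Ω, ENNReal.ofReal (w x * φ x ^ 2)
      ≤ ENNReal.ofReal (K * (∫ x, ‖fderiv ℝ φ x‖ ^ 2) + B * ∫ x, φ x ^ 2)

/-- The potential `w(t,x) ≥ 0` is form bounded with the constant `K` (which may be large): at
almost every time `t` it is form bounded in the balls of radius `ρ(t)` with the constants `K`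
and `B(t)`, where `B + 1/ρ²` is an integrable function of time. -/
def FormBounded (Ω : Set R3) (T K : ℝ) (w : ℝ → R3 → ℝ) : Prop :=
  ∃ B ρ : ℝ → ℝ, (∀ t, 0 ≤ B t) ∧ (∀ t, 0 < ρ t) ∧
    IntegrableOn (fun t => B t + 1 / ρ t ^ 2) (Ioo 0 T) ∧
    ∀ᵐ t ∂(volume.restrict (Ioo 0 T)), LocForm Ω K (B t) (ρ t) (w t)

/-- The function `g(t,x) ≥ 0` is integrable: `∫_Ω g(t,x) dx ≤ b(t)` for almost every `t`, where `b`
is integrable. -/
def IntegrableST (Ω : Set R3) (T : ℝ) (g : ℝ → R3 → ℝ) : Prop :=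
  ∃ b : ℝ → ℝ, IntegrableOn b (Ioo 0 T) ∧ ∀ᵐ t ∂(volume.restrict (Ioo 0 T)),
    AEMeasurable (g t) (volume.restrict Ω) ∧ (∀ x, 0 ≤ g t x) ∧
      ∫⁻ x in Ω, ENNReal.ofReal (g t x) ≤ ENNReal.ofReal (b t)

end Pool.Agent.P8H36.EE
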