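import Pool.Agent.P8H36.EE.Tri
import Pool.Agent.P8H36.EE.PubDef
import Pool.Agent.P8H70.EC.Pub

/-!
The criterion in terms of the public definitions.
-/

set_option autoImplicit false
set_option linter.unusedSectionVars false

open MeasureTheory Set Filter Topology
open scoped InnerProductSpace ENNReal ContDiff NNReal

namespace Pool.Agent.P8H36.EE

open H772R2.NS.Pub Pool.Agent.TH301.EQ
open Pool.Agent.R772.LV (curl)

theorem FL.of_pub {Ω : Set R3} {K B ρ : ℝ} {w : R3 → ℝ} (h : LocForm Ω K B ρ w) :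
    FL (show Set H772R2.NS.E3 from Ω) K B ρ w :=
  ⟨h.meas, h.nonneg, h.bound⟩

section

open H772R2.NS Pool.Agent.R462.HC

/-- a bound by form bounded potentials in the balls -/
theorem FL.of_balls {Ω : Set E3} (hΩ : MeasurableSet Ω) {K B ρ : ℝ} (hK : 0 ≤ K) (hB : 0 ≤ B)
    {w : E3 → ℝ} (h1 : AEMeasurable w (volume.restrict Ω)) (h2 : ∀ x, 0 ≤ w x)
    (h3 : ∀ y ∈ Ω, ∃ W : E3 → ℝ, FB (Ω ∩ Metric.ball y ρ) W ∧
      ∀ᵐ x ∂(volume.restrict (Ω ∩ Metric.ball y ρ)), w x ≤ K * W x + B) :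
    FL Ω K B ρ w := by
  refine ⟨h1, h2, fun y hy φ a1 a2 a3 => ?_⟩
  obtain ⟨W, hW, hle⟩ := h3 y hy
  set O : Set E3 := Ω ∩ Metric.ball y ρ with hO
  have hOm : MeasurableSet O := hΩ.inter measurableSet_ball
  have hφc : Continuous φ := a1.continuous
  have i2 : Integrable fun x => φ x ^ 2 :=
    Continuous.integrable_of_hasCompactSupport (f := fun x => φ x ^ 2)
      (hφc.pow 2) (a2.comp_left (g := fun t : ℝ => t ^ 2) (by simp))
  have e0 : ∫⁻ x in Ω, ENNReal.ofReal (w x * φ x ^ 2)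
      ≤ ∫⁻ x in O, ENNReal.ofReal (w x * φ x ^ 2) := by
    refine (setLIntegral_le_lintegral _ _).trans (le_of_eq ?_)
    rw [← lintegral_indicator hOm]
    refine lintegral_congr fun x => ?_
    by_cases hx : x ∈ O
    · rw [indicator_of_mem hx]
    · rw [indicator_of_notMem hx]
      have : φ x = 0 := image_eq_zero_of_notMem_tsupport fun hc => hx (a3 hc)
      rw [this]
      simp
  refine e0.trans ?_
  have k1 := hW.bound φ a1 a2 a3
  have hg0 : 0 ≤ ∫ x, ‖fderiv ℝ φ x‖ ^ 2 := integral_nonneg fun x => by positivity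
  have hf0 : 0 ≤ ∫ x, φ x ^ 2 := integral_nonneg fun x => sq_nonneg _
  have mφ : Measurable fun x => ENNReal.ofReal (B * φ x ^ 2) :=
    ((hφc.pow 2).measurable.const_mul _).ennreal_ofReal
  calc ∫⁻ x in O, ENNReal.ofReal (w x * φ x ^ 2)
      ≤ ∫⁻ x in O, (ENNReal.ofReal (B * φ x ^ 2)
          + ENNReal.ofReal K * ENNReal.ofReal (W x * φ x ^ 2)) := by
        refine lintegral_mono_ae ?_
        filter_upwards [hle] with x hx
        have c1 := hW.nonneg x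
        rw [← ENNReal.ofReal_mul hK, ← ENNReal.ofReal_add (by positivity) (by positivity)]
        refine ENNReal.ofReal_le_ofReal ?_
        have c2 := mul_le_mul_of_nonneg_right hx (sq_nonneg (φ x))
        linarith
    _ = (∫⁻ x in O, ENNReal.ofReal (B * φ x ^ 2))
          + ENNReal.ofReal K * ∫⁻ x in O, ENNReal.ofReal (W x * φ x ^ 2) := by
        rw [lintegral_add_left mφ, lintegral_const_mul' _ _ ENNReal.ofReal_ne_top]
    _ ≤ ENNReal.ofReal (B * ∫ x, φ x ^ 2)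
          + ENNReal.ofReal K * ENNReal.ofReal (∫ x, ‖fderiv ℝ φ x‖ ^ 2) := by
        refine add_le_add ?_ (mul_le_mul_right k1 _)
        refine (setLIntegral_le_lintegral _ _).trans ?_
        rw [← ofReal_integral_eq_lintegral_ofReal (i2.const_mul _)
          (Eventually.of_forall fun x => by positivity), integral_const_mul]
    _ = _ := by
        rw [← ENNReal.ofReal_mul hK, ← ENNReal.ofReal_add (by positivity) (by positivity)]
        congr 1
        ring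

end

/-- form bounded potentials of the first kind -/
theorem formBounded_of {Ω : Set R3} (hΩ : IsOpen Ω) {T K : ℝ} (hK : 0 ≤ K) {w : ℝ → R3 → ℝ}
    {B ρ : ℝ → ℝ} (hB : ∀ t, 0 ≤ B t) (hρ : ∀ t, 0 < ρ t)
    (hint : IntegrableOn (fun t => B t + 1 / ρ t ^ 2) (Ioo 0 T))
    (h : ∀ᵐ t ∂(volume.restrict (Ioo 0 T)), AEMeasurable (w t) (volume.restrict Ω) ∧
      (∀ x, 0 ≤ w t x) ∧ ∀ y ∈ Ω, ∃ W : R3 → ℝ,
        Pool.Agent.R462.HC.FormBdd (Ω ∩ Metric.ball y (ρ t)) W ∧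
        ∀ᵐ x ∂(volume.restrict (Ω ∩ Metric.ball y (ρ t))), w t x ≤ K * W x + B t) :
    FormBounded Ω T K w := by
  refine ⟨B, ρ, hB, hρ, hint, ?_⟩
  filter_upwards [h] with t ht
  obtain ⟨h1, h2, h3⟩ := ht
  have hΩm : MeasurableSet (show Set H772R2.NS.E3 from Ω) :=
    IsOpen.measurableSet (α := H772R2.NS.E3) hΩ
  have k : FL (show Set H772R2.NS.E3 from Ω) K (B t) (ρ t) (w t) :=
    FL.of_balls hΩm hK (hB t) h1 h2 fun y hy => by
      obtain ⟨W, hW, hle⟩ := h3 y hy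
      exact ⟨W, Pool.Agent.R462.HC.FB.of_pub hW, hle⟩
  exact ⟨k.meas, k.nonneg, k.bound⟩

variable {Ω : Set R3} {ν T : ℝ} {u : ℝ → L2 Ω R3} {G : ℝ → L2 Ω Mat} {f : ℝ → L2 Ω R3}

/-- **The criterion for the triple product, form bounded potentials.** -/
theorem pub_form (hΩ : IsOpen Ω) (hν : 0 ≤ ν) (hT : 0 < T) (hu : IsWeakSolution Ω ν T u G f)
    {K p : ℝ} (hK : 0 ≤ K) (hp : 8 / 3 ≤ p) (hp4 : p ≤ 4)
    (h4 : p ≠ 8 / 3 → ∫⁻ t in Ioo 0 T, norm4 (u t) ^ p ≠ ⊤)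
    {w g : ℝ → R3 → ℝ} (hw : FormBounded Ω T K w) (hg : IntegrableST Ω T g) {K' : ℝ}
    (hK' : 0 ≤ K')
    (hyp : ∀ᵐ t ∂(volume.restrict (Ioo 0 T)), ∀ᵐ s ∂(volume.restrict (Ioo 0 T)),
      ∀ᵐ x ∂(volume.restrict Ω), |⟪(G s).fn x, wedge ((u s).fn x) ((u t).fn x)⟫_ℝ|
        ≤ K' * (modulus p u s t * (‖(G s).fn x‖ * (‖(u s).fn x‖ * ‖(u t).fn x‖))
          + (‖(G s).fn x‖ ^ 2 + ‖(G t).fn x‖ ^ 2)
          + (w s x + w t x) * (‖(u s).fn x‖ ^ 2 + ‖(u t).fn x‖ ^ 2)) + (g s x + g t x)) :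
    ∀ t ∈ Icc 0 T, energyDefect ν u G f t = 0 := by
  have hu' := toNS hu
  have hΩm : MeasurableSet (show Set H772R2.NS.E3 from Ω) :=
    IsOpen.measurableSet (α := H772R2.NS.E3) hΩ
  obtain ⟨B, ρ, hB, hρ, hint, hwt⟩ := hw
  obtain ⟨b, hb, hgt⟩ := hg
  have h4' : IntegrableOn (fun t => H772R2.NS.n4 (Ω := (Ω : Set H772R2.NS.E3)) (u t) ^ p)
      (Ioo 0 T) := by
    rcases eq_or_ne p (8 / 3) with h | h
    · rw [h]
      exact n4_auto (Ω := (Ω : Set H772R2.NS.E3)) hΩ hu'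
    · exact n4_int (Ω := (Ω : Set H772R2.NS.E3)) hΩ hu' (h4 h)
  have hC := Pool.Agent.R772.LI.C0_nonneg
  have hq : ∀ t, 0 ≤ B t + 1 / ρ t ^ 2 := fun t => by
    have h1 := hB t
    have h2 := hρ t
    positivity
  have hint' : Integrable (fun t => B t + 1 / ρ t ^ 2) (volume.restrict (Ioo 0 T)) := hint
  have hb' : Integrable b (volume.restrict (Ioo 0 T)) := hb
  refine main (Ω := (Ω : Set H772R2.NS.E3)) hΩ hν hT hu' hK' (κ := 2 * K) (by positivity) hp hp4 h4'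
    (w := w) (g := g)
    (B := fun t => (1 + 8 * K * Pool.Agent.R772.LI.C0) * (B t + 1 / ρ t ^ 2)) (b := fun t => |b t|)
    (fun t => by
      have := hq t
      positivity) (fun t => abs_nonneg _) (hint'.const_mul _) hb'.abs ?_ ?_ ?_
  · filter_upwards [hwt] with t ht
    refine ⟨ht.meas, ht.nonneg, fun q hqW => ?_⟩
    refine ((FL.of_pub ht).graph hΩm hK (hB t) (hρ t) hqW).trans (ENNReal.ofReal_le_ofReal ?_)
    have a1 := hB t
    have a2 := hρ t
    have e1 : (1 + 8 * K * Pool.Agent.R772.LI.C0) * (B t + 1 / ρ t ^ 2)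
        = (B t + 8 * K * Pool.Agent.R772.LI.C0 / ρ t ^ 2)
          + (1 / ρ t ^ 2 + 8 * K * Pool.Agent.R772.LI.C0 * B t) := by
      field_simp
      ring
    have e2 : 0 ≤ 1 / ρ t ^ 2 + 8 * K * Pool.Agent.R772.LI.C0 * B t := by positivity
    have e3 : B t + 8 * K * Pool.Agent.R772.LI.C0 / ρ t ^ 2
        ≤ (1 + 8 * K * Pool.Agent.R772.LI.C0) * (B t + 1 / ρ t ^ 2) := by linarith
    have e4 := mul_le_mul_of_nonneg_right e3 (sq_nonneg ‖q.1‖)
    linarith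
  · filter_upwards [hgt] with t ht
    exact ⟨ht.1, ht.2.1, ht.2.2.trans (ENNReal.ofReal_le_ofReal (le_abs_self _))⟩
  · filter_upwards [hyp] with t ht
    filter_upwards [ht] with s hs
    filter_upwards [hs] with x hx
    have h2 := wedge_eq ((u s).fn x) ((u t).fn x)
    have h3 : ⟪alt ((u s).fn x) ((u t).fn x), (G s).fn x⟫_ℝ
        = ⟪(G s).fn x, wedge ((u s).fn x) ((u t).fn x)⟫_ℝ := by
      rw [← h2]
      exact real_inner_comm _ _
    refine (le_of_eq (congrArg abs h3)).trans (hx.trans (le_of_eq ?_))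
    show K' * (modulus p u s t * (‖(G s).fn x‖ * (‖(u s).fn x‖ * ‖(u t).fn x‖))
          + (‖(G s).fn x‖ ^ 2 + ‖(G t).fn x‖ ^ 2)
          + (w s x + w t x) * (‖(u s).fn x‖ ^ 2 + ‖(u t).fn x‖ ^ 2)) + (g s x + g t x)
      = ‖(G s).fn x‖ * (K' * modulus p u s t * (‖(u s).fn x‖ * ‖(u t).fn x‖))
          + K' * (‖(G s).fn x‖ ^ 2 + ‖(G t).fn x‖ ^ 2)
          + K' * ((w s x + w t x) * (‖(u s).fn x‖ ^ 2 + ‖(u t).fn x‖ ^ 2)) + (g s x + g t x)
    ring

end Pool.Agent.P8H36.EE
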