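import Pool.Agent.P8H36.EE.PubDef

/-!
Public definitions: rotations about an axis.
-/

set_option autoImplicit false

open MeasureTheory Set
open scoped InnerProductSpace ENNReal ContDiff

namespace Pool.Agent.P8H36.EE

open H772R2.NS.Pub
open Pool.Agent.R772.LV (co)

/-- The rotation by the angle `α` about the third coordinate axis. -/
noncomputable def rotZ (α : ℝ) (x : R3) : R3 :=
  (Real.cos α * co x 0 - Real.sin α * co x 1) • e 0
    + (Real.sin α * co x 0 + Real.cos α * co x 1) • e 1 + co x 2 • e 2

/-- The square `x₁² + x₂²` of the length of the horizontal part of `x`, that is, of the distance to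
the third coordinate axis. -/
noncomputable def horSq (x : R3) : ℝ := co x 0 ^ 2 + co x 1 ^ 2

/-- The field `v` on `Ω` is invariant under the rotation `R` by the angle `α`: `v(Rx) = R v(x)`. -/
def RotInvariant {Ω : Set R3} (α : ℝ) (v : L2 Ω R3) : Prop :=
  ∀ᵐ x ∂(volume.restrict Ω), v.fn (rotZ α x) = rotZ α (v.fn x)

end Pool.Agent.P8H36.EE
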