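import Pool.Agent.P8H36.EE.Form

/-!
Rotations about an axis: the Hardy inequality for the differences.
-/

set_option autoImplicit false
set_option linter.unusedSectionVars false

open MeasureTheory Set Filter Topology
open scoped InnerProductSpace ENNReal ContDiff NNReal

namespace Pool.Agent.P8H36.EE

open H772R2.NS Pool.Agent.TH340.FF Pool.Agent.R462.HC Pool.Agent.R772.LI

/-- the horizontal part -/
noncomputable def hP (x : E3) : E3 := WithLp.toLp 2 ![x 0, x 1, 0]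

/-- the horizontal part turned by a right angle -/
noncomputable def hJ (x : E3) : E3 := WithLp.toLp 2 ![-x 1, x 0, 0]

/-- the vertical part -/
noncomputable def hZ (x : E3) : E3 := WithLp.toLp 2 ![0, 0, x 2]

/-- the square of the distance to the axis -/
noncomputable def r2 (x : E3) : ℝ := x 0 ^ 2 + x 1 ^ 2

/-- the rotation by the angle `τ` -/
noncomputable def rt (τ : ℝ) (x : E3) : E3 := Real.cos τ • hP x + Real.sin τ • hJ x + hZ x

theorem rt_0 (τ : ℝ) (x : E3) : rt τ x 0 = Real.cos τ * x 0 - Real.sin τ * x 1 := by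
  simp [rt, hP, hJ, hZ]; ring

theorem rt_1 (τ : ℝ) (x : E3) : rt τ x 1 = Real.sin τ * x 0 + Real.cos τ * x 1 := by
  simp [rt, hP, hJ, hZ]; ring

theorem rt_2 (τ : ℝ) (x : E3) : rt τ x 2 = x 2 := by
  simp [rt, hP, hJ, hZ]

theorem E3_ext {x y : E3} (h0 : x 0 = y 0) (h1 : x 1 = y 1) (h2 : x 2 = y 2) : x = y := by
  refine PiLp.ext fun i => ?_
  fin_cases i
  · exact h0
  · exact h1
  · exact h2

theorem norm_sq3 (x : E3) : ‖x‖ ^ 2 = x 0 ^ 2 + x 1 ^ 2 + x 2 ^ 2 := by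
  rw [norm_sq_E3, Fin.sum_univ_three]

theorem norm_rt (τ : ℝ) (x : E3) : ‖rt τ x‖ = ‖x‖ := by
  have h : ‖rt τ x‖ ^ 2 = ‖x‖ ^ 2 := by
    rw [norm_sq3, norm_sq3, rt_0, rt_1, rt_2]
    have := Real.sin_sq_add_cos_sq τ
    linear_combination (x 0 ^ 2 + x 1 ^ 2) * this
  exact (sq_eq_sq₀ (norm_nonneg _) (norm_nonneg _)).1 h

/-- the rotation as a linear isometry -/
noncomputable def rtL (τ : ℝ) : E3 →ₗᵢ[ℝ] E3 where
  toFun := rt τ
  map_add' x y := by
    refine E3_ext ?_ ?_ ?_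
    · rw [PiLp.add_apply, rt_0, rt_0, rt_0, PiLp.add_apply, PiLp.add_apply]; ring
    · rw [PiLp.add_apply, rt_1, rt_1, rt_1, PiLp.add_apply, PiLp.add_apply]; ring
    · rw [PiLp.add_apply, rt_2, rt_2, rt_2, PiLp.add_apply]
  map_smul' c x := by
    refine E3_ext ?_ ?_ ?_
    · rw [RingHom.id_apply, PiLp.smul_apply, rt_0, rt_0, PiLp.smul_apply, PiLp.smul_apply,
        smul_eq_mul, smul_eq_mul, smul_eq_mul]; ring
    · rw [RingHom.id_apply, PiLp.smul_apply, rt_1, rt_1, PiLp.smul_apply, PiLp.smul_apply,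
        smul_eq_mul, smul_eq_mul, smul_eq_mul]; ring
    · rw [RingHom.id_apply, PiLp.smul_apply, rt_2, rt_2, PiLp.smul_apply]
  norm_map' x := norm_rt τ x

theorem mp_rt (τ : ℝ) : MeasurePreserving (rt τ) (volume : Measure E3) volume :=
  ((rtL τ).toLinearIsometryEquiv rfl).measurePreserving

theorem norm_vel (τ : ℝ) (x : E3) :
    ‖-Real.sin τ • hP x + Real.cos τ • hJ x‖ ^ 2 = r2 x := by
  rw [norm_sq3]
  simp [hP, hJ, r2]
  have := Real.sin_sq_add_cos_sq τ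
  linear_combination (x 0 ^ 2 + x 1 ^ 2) * this

theorem hasDerivAt_rt (x : E3) (τ : ℝ) :
    HasDerivAt (fun s => rt s x) (-Real.sin τ • hP x + Real.cos τ • hJ x) τ := by
  have h1 := (Real.hasDerivAt_cos τ).smul_const (hP x)
  have h2 := (Real.hasDerivAt_sin τ).smul_const (hJ x)
  exact (h1.add h2).add_const (hZ x)

theorem rt_zero (x : E3) : rt 0 x = x := by
  refine E3_ext ?_ ?_ ?_
  · rw [rt_0]; simp
  · rw [rt_1]; simp
  · rw [rt_2]

theorem rt_sub (α : ℝ) (v : E3) : ‖rt α v - v‖ ^ 2 = (2 - 2 * Real.cos α) * r2 v := by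
  rw [norm_sq3, PiLp.sub_apply, PiLp.sub_apply, PiLp.sub_apply, rt_0, rt_1, rt_2]
  unfold r2
  have := Real.sin_sq_add_cos_sq α
  linear_combination (v 0 ^ 2 + v 1 ^ 2) * this

theorem cont_rt : Continuous fun p : ℝ × E3 => rt p.1 p.2 := by
  have h : ∀ i, Continuous fun p : ℝ × E3 => p.2 i := fun i =>
    (EuclideanSpace.proj (𝕜 := ℝ) i : E3 →L[ℝ] ℝ).continuous.comp continuous_snd
  have c0 : Continuous fun p : ℝ × E3 => hP p.2 := by
    unfold hP
    refine (PiLp.continuous_toLp 2 _).comp (continuous_pi fun i => ?_)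
    fin_cases i
    · exact h 0
    · exact h 1
    · exact continuous_const
  have c1 : Continuous fun p : ℝ × E3 => hJ p.2 := by
    unfold hJ
    refine (PiLp.continuous_toLp 2 _).comp (continuous_pi fun i => ?_)
    fin_cases i
    · exact (h 1).neg
    · exact h 0
    · exact continuous_const
  have c2 : Continuous fun p : ℝ × E3 => hZ p.2 := by
    unfold hZ
    refine (PiLp.continuous_toLp 2 _).comp (continuous_pi fun i => ?_)
    fin_cases i
    · exact continuous_const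
    · exact continuous_const
    · exact h 2
  exact (((Real.continuous_cos.comp continuous_fst).smul c0).add
    ((Real.continuous_sin.comp continuous_fst).smul c1)).add c2

attribute [irreducible] rt

/-- Cauchy-Schwarz on an interval -/
theorem cs_int {f : ℝ → ℝ} (hf : Continuous f) {α : ℝ} (hα : 0 < α) :
    (∫ τ in (0 : ℝ)..α, f τ) ^ 2 ≤ α * ∫ τ in (0 : ℝ)..α, f τ ^ 2 := by
  set c := (∫ τ in (0 : ℝ)..α, f τ) / α with hc
  have h1 : 0 ≤ ∫ τ in (0 : ℝ)..α, (f τ - c) ^ 2 :=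
    intervalIntegral.integral_nonneg hα.le fun _ _ => sq_nonneg _
  have i1 : IntervalIntegrable (fun τ => f τ ^ 2) volume 0 α := (hf.pow 2).intervalIntegrable _ _
  have i2 : IntervalIntegrable (fun τ => 2 * c * f τ) volume 0 α :=
    (hf.const_mul (2 * c)).intervalIntegrable _ _
  have i3 : IntervalIntegrable (fun _ : ℝ => c ^ 2) volume 0 α :=
    continuous_const.intervalIntegrable _ _
  have e1 : ∫ τ in (0 : ℝ)..α, (f τ - c) ^ 2
      = (∫ τ in (0 : ℝ)..α, f τ ^ 2) - 2 * c * (∫ τ in (0 : ℝ)..α, f τ) + α * c ^ 2 := by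
    have e2 : ∀ τ, (f τ - c) ^ 2 = f τ ^ 2 - 2 * c * f τ + c ^ 2 := fun τ => by ring
    simp_rw [e2]
    rw [intervalIntegral.integral_add (i1.sub i2) i3, intervalIntegral.integral_sub i1 i2,
      intervalIntegral.integral_const_mul, intervalIntegral.integral_const]
    simp
  rw [e1] at h1
  have h2 : c * α = ∫ τ in (0 : ℝ)..α, f τ := div_mul_cancel₀ _ hα.ne'
  rw [← h2] at h1 ⊢
  have h3 : 0 ≤ α * ((∫ τ in (0 : ℝ)..α, f τ ^ 2) - 2 * c * (c * α) + α * c ^ 2) :=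
    mul_nonneg hα.le h1
  nlinarith

/-- the increment of a field along a curve -/
theorem curve_pt {φ : E3 → E3} (hφ : ContDiff ℝ ∞ φ) {c v : ℝ → E3}
    (hc : ∀ τ, HasDerivAt c (v τ) τ) (cc : Continuous c) (cv : Continuous v) {R : ℝ}
    (hR : ∀ τ, ‖v τ‖ = R) {α : ℝ} (hα : 0 < α) :
    ‖φ (c α) - φ (c 0)‖ ^ 2 ≤ R ^ 2 * (α * ∫ τ in (0 : ℝ)..α, ‖fderiv ℝ φ (c τ)‖ ^ 2) := by
  have cd : Continuous (fderiv ℝ φ) := hφ.continuous_fderiv (by simp)
  have cf : Continuous fun τ : ℝ => ‖fderiv ℝ φ (c τ)‖ := (cd.comp cc).norm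
  have cg : Continuous fun τ : ℝ => fderiv ℝ φ (c τ) (v τ) := (cd.comp cc).clm_apply cv
  have hd : ∀ τ ∈ uIcc 0 α, HasDerivAt (fun s => φ (c s)) (fderiv ℝ φ (c τ) (v τ)) τ := fun τ _ =>
    ((hφ.differentiable (by simp)) _).hasFDerivAt.comp_hasDerivAt τ (hc τ)
  have e1 := intervalIntegral.integral_eq_sub_of_hasDerivAt hd (cg.intervalIntegrable _ _)
  rw [← e1]
  have n1 : ‖∫ τ in (0 : ℝ)..α, fderiv ℝ φ (c τ) (v τ)‖
      ≤ ∫ τ in (0 : ℝ)..α, ‖fderiv ℝ φ (c τ)‖ * R := by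
    refine (intervalIntegral.norm_integral_le_integral_norm hα.le).trans ?_
    refine intervalIntegral.integral_mono_on hα.le (cg.norm.intervalIntegrable _ _)
      ((cf.mul continuous_const).intervalIntegrable _ _) fun τ _ => ?_
    refine (ContinuousLinearMap.le_opNorm _ _).trans (le_of_eq ?_)
    rw [hR]
  have cfR : Continuous fun τ : ℝ => ‖fderiv ℝ φ (c τ)‖ * R := cf.mul continuous_const
  have n2 := cs_int cfR hα
  have n3 := pow_le_pow_left₀ (norm_nonneg _) n1 2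
  refine n3.trans (n2.trans (le_of_eq ?_))
  have e2 : ∀ τ : ℝ, (‖fderiv ℝ φ (c τ)‖ * R) ^ 2
      = R ^ 2 * ‖fderiv ℝ φ (c τ)‖ ^ 2 := fun τ => by
    rw [mul_pow]; ring
  simp_rw [e2]
  rw [intervalIntegral.integral_const_mul]
  ring

/-- averaging over a family of measure preserving maps -/
theorem avg_rot {Φ : ℝ → E3 → E3} (cΦ : Continuous fun p : ℝ × E3 => Φ p.1 p.2)
    (hmp : ∀ τ, MeasurePreserving (Φ τ) (volume : Measure E3) volume) {g : E3 → ℝ}
    (hg : Continuous g) (hg0 : ∀ x, 0 ≤ g x) {α : ℝ} (hα : 0 < α) :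
    ∫⁻ x, ENNReal.ofReal (α * ∫ τ in (0 : ℝ)..α, g (Φ τ x))
      = ENNReal.ofReal (α ^ 2) * ∫⁻ x, ENNReal.ofReal (g x) := by
  have cp : Continuous fun p : ℝ × E3 => g (Φ p.1 p.2) := hg.comp cΦ
  have mp : Measurable fun p : ℝ × E3 => ENNReal.ofReal (g (Φ p.1 p.2)) :=
    cp.measurable.ennreal_ofReal
  have s1 : ∀ x, ENNReal.ofReal (α * ∫ τ in (0 : ℝ)..α, g (Φ τ x))
      = ENNReal.ofReal α * ∫⁻ τ in Ioc 0 α, ENNReal.ofReal (g (Φ τ x)) := by
    intro x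
    have cx : Continuous fun τ : ℝ => g (Φ τ x) := cp.comp (continuous_id.prodMk continuous_const)
    have hi : IntegrableOn (fun τ : ℝ => g (Φ τ x)) (Ioc 0 α) :=
      (cx.intervalIntegrable (μ := volume) 0 α).1
    rw [ENNReal.ofReal_mul hα.le, intervalIntegral.integral_of_le hα.le,
      ofReal_integral_eq_lintegral_ofReal hi (Eventually.of_forall fun τ => hg0 _)]
  simp_rw [s1]
  rw [lintegral_const_mul' _ _ ENNReal.ofReal_ne_top]
  have sw : ∫⁻ x : E3, ∫⁻ τ in Ioc 0 α, ENNReal.ofReal (g (Φ τ x))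
      = ∫⁻ τ in Ioc 0 α, ∫⁻ x : E3, ENNReal.ofReal (g (Φ τ x)) := by
    refine lintegral_lintegral_swap ?_
    exact (mp.comp (measurable_snd.prodMk measurable_fst)).aemeasurable
  have e2 : ∀ τ : ℝ, ∫⁻ x : E3, ENNReal.ofReal (g (Φ τ x)) = ∫⁻ x : E3, ENNReal.ofReal (g x) :=
    fun τ => (hmp τ).lintegral_comp hg.measurable.ennreal_ofReal
  rw [sw]
  simp_rw [e2]
  rw [setLIntegral_const, Real.volume_Ioc, sub_zero, mul_comm _ (ENNReal.ofReal α), ← mul_assoc,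
    ← ENNReal.ofReal_mul hα.le, ← pow_two]

theorem r2_nonneg (x : E3) : 0 ≤ r2 x := by unfold r2; positivity

theorem cont_hJ : Continuous hJ := by
  have h : ∀ i, Continuous fun p : E3 => p i := fun i =>
    (EuclideanSpace.proj (𝕜 := ℝ) i : E3 →L[ℝ] ℝ).continuous
  unfold hJ
  refine (PiLp.continuous_toLp 2 _).comp (continuous_pi fun i => ?_)
  fin_cases i
  · exact (h 1).neg
  · exact h 0
  · exact continuous_const

/-- the pointwise inequality -/
theorem rt_pt {φ : E3 → E3} (hφ : ContDiff ℝ ∞ φ) {α : ℝ} (hα : 0 < α) (x : E3) :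
    ‖φ (rt α x) - φ x‖ ^ 2 ≤ r2 x * (α * ∫ τ in (0 : ℝ)..α, ‖fderiv ℝ φ (rt τ x)‖ ^ 2) := by
  have cr : Continuous fun τ : ℝ => rt τ x :=
    continuous_iff_continuousAt.2 fun τ => (hasDerivAt_rt x τ).continuousAt
  have c1 : Continuous fun τ : ℝ => -Real.sin τ • hP x :=
    (Real.continuous_sin.neg).smul continuous_const
  have c2 : Continuous fun τ : ℝ => Real.cos τ • hJ x := Real.continuous_cos.smul continuous_const
  have cv : Continuous fun τ : ℝ => -Real.sin τ • hP x + Real.cos τ • hJ x := c1.add c2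
  have nv : ∀ τ : ℝ, ‖-Real.sin τ • hP x + Real.cos τ • hJ x‖ = √(r2 x) := fun τ => by
    rw [← norm_vel τ x, Real.sqrt_sq (norm_nonneg _)]
  have h := curve_pt hφ (fun τ => hasDerivAt_rt x τ) cr cv nv hα
  rw [Real.sq_sqrt (r2_nonneg x), rt_zero] at h
  exact h

/-- **The Hardy inequality for the differences, test fields.** -/
theorem rt_test {φ : E3 → E3} (hφ : ContDiff ℝ ∞ φ) (hc : HasCompactSupport φ) {α : ℝ}
    (hα : 0 < α) :
    ∫⁻ x, ENNReal.ofReal (‖φ (rt α x) - φ x‖ ^ 2 / r2 x) ≤ ENNReal.ofReal (α ^ 2 * ∫ x, JJ φ x) := by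
  have cd : Continuous (fderiv ℝ φ) := hφ.continuous_fderiv (by simp)
  have cF : Continuous fun x => ‖fderiv ℝ φ x‖ ^ 2 := cd.norm.pow 2
  have s1 : ∫⁻ x, ENNReal.ofReal (‖φ (rt α x) - φ x‖ ^ 2 / r2 x)
      ≤ ∫⁻ x, ENNReal.ofReal (α * ∫ τ in (0 : ℝ)..α, ‖fderiv ℝ φ (rt τ x)‖ ^ 2) := by
    refine lintegral_mono fun x => ENNReal.ofReal_le_ofReal ?_
    have h1 := rt_pt hφ hα x
    have hI : 0 ≤ α * ∫ τ in (0 : ℝ)..α, ‖fderiv ℝ φ (rt τ x)‖ ^ 2 :=
      mul_nonneg hα.le (intervalIntegral.integral_nonneg hα.le fun _ _ => sq_nonneg _)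
    rcases (r2_nonneg x).eq_or_lt with h0 | h0
    · rw [← h0, div_zero]
      exact hI
    · rw [div_le_iff₀ h0, mul_comm]
      exact h1
  have s2 := avg_rot (Φ := rt) cont_rt mp_rt cF (fun x => sq_nonneg _) hα
  have s3 : ∫⁻ x, ENNReal.ofReal (‖fderiv ℝ φ x‖ ^ 2) ≤ ENNReal.ofReal (∫ x, JJ φ x) := by
    rw [ofReal_integral_eq_lintegral_ofReal (JJ_int' hφ hc)
      (Eventually.of_forall fun x => JJ_nonneg φ x)]
    refine lintegral_mono fun x => ENNReal.ofReal_le_ofReal ?_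
    rw [JJ_eq]
    exact pow_le_pow_left₀ (norm_nonneg _) (norm_fderiv_le_jac x) 2
  rw [s2] at s1
  refine s1.trans ((mul_le_mul_right s3 _).trans (le_of_eq ?_))
  rw [← ENNReal.ofReal_mul (by positivity)]

variable {Ω : Set E3}

/-- **The Hardy inequality for the differences.** -/
theorem rt_graph (hΩ : MeasurableSet Ω) {α : ℝ} (hα : 0 < α) (hinv : ∀ x, rt α x ∈ Ω ↔ x ∈ Ω)
    {p : L2V Ω × L2M Ω} (hp : p ∈ graphW Ω) :
    ∫⁻ x in Ω, ENNReal.ofReal (‖p.1 (rt α x) - p.1 x‖ ^ 2 / r2 x)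
      ≤ ENNReal.ofReal (α ^ 2 * ‖p.2‖ ^ 2) := by
  have mp : MeasurePreserving (rt α) (volume.restrict Ω) (volume.restrict Ω) := by
    have h := (mp_rt α).restrict_preimage hΩ
    have e : rt α ⁻¹' Ω = Ω := by
      ext x
      exact hinv x
    rwa [e] at h
  have hp' : p ∈ closure (preW Ω : Set (L2V Ω × L2M Ω)) := by
    have := hp
    unfold graphW at this
    rwa [← SetLike.mem_coe, Submodule.topologicalClosure_coe] at this
  obtain ⟨q, hq, hlim⟩ := mem_closure_iff_seq_limit.mp hp'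
  have h1 : Tendsto (fun n => (q n).1) atTop (𝓝 p.1) := (continuous_fst.tendsto p).comp hlim
  have h2 : Tendsto (fun n => (q n).2) atTop (𝓝 p.2) := (continuous_snd.tendsto p).comp hlim
  have hmeas : TendstoInMeasure (volume.restrict Ω) (fun n => ((q n).1 : E3 → E3)) atTop p.1 :=
    tendstoInMeasure_of_tendsto_Lp h1
  obtain ⟨ns, hns, hae⟩ := hmeas.exists_seq_tendsto_ae
  have hns' := hns.tendsto_atTop
  have hae' : ∀ᵐ x ∂(volume.restrict Ω),
      Tendsto (fun n => (q (ns n)).1 (rt α x)) atTop (𝓝 (p.1 (rt α x))) :=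
    mp.quasiMeasurePreserving.ae hae
  have mr : Measurable fun x : E3 => r2 x :=
    ((((EuclideanSpace.proj (𝕜 := ℝ) (0 : Fin 3) : E3 →L[ℝ] ℝ).continuous.pow 2).add
      ((EuclideanSpace.proj (𝕜 := ℝ) (1 : Fin 3) : E3 →L[ℝ] ℝ).continuous.pow 2))).measurable
  have hbd : ∀ n, ∫⁻ x in Ω, ENNReal.ofReal (‖(q n).1 (rt α x) - (q n).1 x‖ ^ 2 / r2 x)
      ≤ ENNReal.ofReal (α ^ 2 * ‖(q n).2‖ ^ 2) := by
    intro n
    obtain ⟨φ, k1, k2, k3⟩ := hq n
    have n2 : ‖(q n).2‖ ^ 2 = ∫ x, JJ φ x := norm_test2 k1 k3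
    have k2' : ∀ᵐ x ∂(volume.restrict Ω), (q n).1 (rt α x) = φ (rt α x) :=
      mp.quasiMeasurePreserving.ae k2
    have e1 : ∫⁻ x in Ω, ENNReal.ofReal (‖(q n).1 (rt α x) - (q n).1 x‖ ^ 2 / r2 x)
        = ∫⁻ x in Ω, ENNReal.ofReal (‖φ (rt α x) - φ x‖ ^ 2 / r2 x) := by
      refine lintegral_congr_ae ?_
      filter_upwards [k2, k2'] with x hx hy
      rw [hx, hy]
    rw [e1, n2]
    exact (setLIntegral_le_lintegral _ _).trans (rt_test k1.smooth k1.compact hα)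
  have hR : Tendsto (fun n => ENNReal.ofReal (α ^ 2 * ‖(q (ns n)).2‖ ^ 2)) atTop
      (𝓝 (ENNReal.ofReal (α ^ 2 * ‖p.2‖ ^ 2))) := by
    have a2 : Tendsto (fun n => ‖(q (ns n)).2‖) atTop (𝓝 ‖p.2‖) :=
      (continuous_norm.tendsto _).comp (h2.comp hns')
    exact ENNReal.tendsto_ofReal ((a2.pow 2).const_mul _)
  have hlimx : ∀ᵐ x ∂(volume.restrict Ω), ENNReal.ofReal (‖p.1 (rt α x) - p.1 x‖ ^ 2 / r2 x)
      ≤ liminf (fun n => ENNReal.ofReal
        (‖(q (ns n)).1 (rt α x) - (q (ns n)).1 x‖ ^ 2 / r2 x)) atTop := by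
    filter_upwards [hae, hae'] with x hx hy
    have a1 : Tendsto (fun n => ENNReal.ofReal
        (‖(q (ns n)).1 (rt α x) - (q (ns n)).1 x‖ ^ 2 / r2 x)) atTop
        (𝓝 (ENNReal.ofReal (‖p.1 (rt α x) - p.1 x‖ ^ 2 / r2 x))) :=
      ENNReal.tendsto_ofReal ((((hy.sub hx).norm).pow 2).div_const _)
    exact a1.liminf_eq.ge
  calc ∫⁻ x in Ω, ENNReal.ofReal (‖p.1 (rt α x) - p.1 x‖ ^ 2 / r2 x)
      ≤ ∫⁻ x in Ω, liminf (fun n => ENNReal.ofReal
        (‖(q (ns n)).1 (rt α x) - (q (ns n)).1 x‖ ^ 2 / r2 x)) atTop :=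
        lintegral_mono_ae hlimx
    _ ≤ liminf (fun n => ∫⁻ x in Ω, ENNReal.ofReal
        (‖(q (ns n)).1 (rt α x) - (q (ns n)).1 x‖ ^ 2 / r2 x)) atTop := by
        refine lintegral_liminf_le' fun n => ?_
        have m1 : AEStronglyMeasurable (fun x => (q (ns n)).1 (rt α x)) (volume.restrict Ω) :=
          (Lp.aestronglyMeasurable (q (ns n)).1).comp_measurePreserving mp
        exact (((m1.sub (Lp.aestronglyMeasurable _)).norm.aemeasurable.pow_const 2).div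
          mr.aemeasurable).ennreal_ofReal
    _ ≤ liminf (fun n => ENNReal.ofReal (α ^ 2 * ‖(q (ns n)).2‖ ^ 2)) atTop :=
        liminf_le_liminf (Eventually.of_forall fun n => hbd (ns n))
    _ = _ := hR.liminf_eq

/-- the horizontal components of a symmetric field -/
theorem rt_sym (hΩ : MeasurableSet Ω) {α : ℝ} (hα : 0 < α) (hcos : Real.cos α ≠ 1)
    (hinv : ∀ x, rt α x ∈ Ω ↔ x ∈ Ω) {p : L2V Ω × L2M Ω} (hp : p ∈ graphW Ω)
    (hs : ∀ᵐ x ∂(volume.restrict Ω), p.1 (rt α x) = rt α (p.1 x)) :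
    ∫⁻ x in Ω, ENNReal.ofReal (r2 (p.1 x) / r2 x)
      ≤ ENNReal.ofReal (α ^ 2 / (2 - 2 * Real.cos α) * ‖p.2‖ ^ 2) := by
  have hc : 0 < 2 - 2 * Real.cos α := by
    have h1 := Real.cos_le_one α
    have h2 : Real.cos α < 1 := lt_of_le_of_ne h1 hcos
    linarith
  have h := rt_graph hΩ hα hinv hp
  have e1 : ∫⁻ x in Ω, ENNReal.ofReal (‖p.1 (rt α x) - p.1 x‖ ^ 2 / r2 x)
      = ENNReal.ofReal (2 - 2 * Real.cos α) * ∫⁻ x in Ω, ENNReal.ofReal (r2 (p.1 x) / r2 x) := by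
    rw [← lintegral_const_mul' _ _ ENNReal.ofReal_ne_top]
    refine lintegral_congr_ae ?_
    filter_upwards [hs] with x hx
    rw [hx, rt_sub, ← ENNReal.ofReal_mul hc.le, mul_div_assoc]
  rw [e1] at h
  have n0 : ENNReal.ofReal (2 - 2 * Real.cos α) ≠ 0 := by
    rw [Ne, ENNReal.ofReal_eq_zero, not_le]
    exact hc
  have e2 : ENNReal.ofReal (α ^ 2 * ‖p.2‖ ^ 2) = ENNReal.ofReal (2 - 2 * Real.cos α)
      * ENNReal.ofReal (α ^ 2 / (2 - 2 * Real.cos α) * ‖p.2‖ ^ 2) := by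
    rw [← ENNReal.ofReal_mul hc.le]
    congr 1
    field_simp
  rw [e2] at h
  exact (ENNReal.mul_le_mul_iff_right n0 ENNReal.ofReal_ne_top).1 h

end Pool.Agent.P8H36.EE
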