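import Pool.Agent.P8H36.EE.Pub

/-!
Vector algebra: one component of the velocity and of the vorticity along a direction field.
-/

set_option autoImplicit false
set_option linter.unusedSectionVars false

open MeasureTheory Set Filter Topology
open scoped InnerProductSpace ENNReal ContDiff NNReal

namespace Pool.Agent.P8H36.EE

open H772R2.NS.Pub Pool.Agent.TH301.EQ
open Pool.Agent.R772.LV (curl curl_apply norm_curl)

/-- the determinant -/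
def det3 (x y z : Fin 3 → ℝ) : ℝ :=
  x 0 * (y 1 * z 2 - y 2 * z 1) + x 1 * (y 2 * z 0 - y 0 * z 2) + x 2 * (y 0 * z 1 - y 1 * z 0)

def dot3 (x y : Fin 3 → ℝ) : ℝ := x 0 * y 0 + x 1 * y 1 + x 2 * y 2

theorem det3_sq (x y z : Fin 3 → ℝ) :
    det3 x y z ^ 2 ≤ dot3 x x * dot3 y y * dot3 z z := by
  unfold det3 dot3
  set c0 := y 1 * z 2 - y 2 * z 1 with h0
  set c1 := y 2 * z 0 - y 0 * z 2 with h1
  set c2 := y 0 * z 1 - y 1 * z 0 with h2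
  have e1 : (y 0 * y 0 + y 1 * y 1 + y 2 * y 2) * (z 0 * z 0 + z 1 * z 1 + z 2 * z 2)
      = (c0 ^ 2 + c1 ^ 2 + c2 ^ 2) + (y 0 * z 0 + y 1 * z 1 + y 2 * z 2) ^ 2 := by
    rw [h0, h1, h2]; ring
  have e2 : (x 0 * x 0 + x 1 * x 1 + x 2 * x 2) * (c0 ^ 2 + c1 ^ 2 + c2 ^ 2)
      = (x 0 * c0 + x 1 * c1 + x 2 * c2) ^ 2 + ((x 0 * c1 - x 1 * c0) ^ 2
        + (x 0 * c2 - x 2 * c0) ^ 2 + (x 1 * c2 - x 2 * c1) ^ 2) := by ring
  have e3 : (x 0 * x 0 + x 1 * x 1 + x 2 * x 2) * (y 0 * y 0 + y 1 * y 1 + y 2 * y 2)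
      * (z 0 * z 0 + z 1 * z 1 + z 2 * z 2)
      = (x 0 * x 0 + x 1 * x 1 + x 2 * x 2) * (c0 ^ 2 + c1 ^ 2 + c2 ^ 2)
        + (x 0 * x 0 + x 1 * x 1 + x 2 * x 2) * (y 0 * z 0 + y 1 * z 1 + y 2 * z 2) ^ 2 := by
    rw [mul_assoc, e1, mul_add]
  rw [e3, e2]
  have p1 : 0 ≤ (x 0 * c1 - x 1 * c0) ^ 2
        + (x 0 * c2 - x 2 * c0) ^ 2 + (x 1 * c2 - x 2 * c1) ^ 2 := by positivity
  have p2 : 0 ≤ (x 0 * x 0 + x 1 * x 1 + x 2 * x 2) * (y 0 * z 0 + y 1 * z 1 + y 2 * z 2) ^ 2 :=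
    mul_nonneg (add_nonneg (add_nonneg (mul_self_nonneg _) (mul_self_nonneg _))
      (mul_self_nonneg _)) (sq_nonneg _)
  linarith

theorem det3_dir (w a b d : Fin 3 → ℝ) (hd : dot3 d d = 1) :
    det3 w a b = dot3 w d * det3 d a b + dot3 a d * det3 w d b + dot3 b d * det3 w a d := by
  have : dot3 d d * det3 w a b
      = dot3 w d * det3 d a b + dot3 a d * det3 w d b + dot3 b d * det3 w a d := by
    unfold det3 dot3
    ring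
  rw [← this, hd, one_mul]

theorem dot3_inner (a b : H772R2.NS.E3) : dot3 a b = ⟪a, b⟫_ℝ := by
  rw [H772R2.NS.inner_E3, Fin.sum_univ_three]
  rfl

theorem dot3_self (a : H772R2.NS.E3) : dot3 a a = ‖a‖ ^ 2 := by
  rw [dot3_inner, real_inner_self_eq_norm_sq]

theorem abs_det3_le (x y z : H772R2.NS.E3) : |det3 x y z| ≤ ‖x‖ * ‖y‖ * ‖z‖ := by
  refine abs_le_of_sq_le_sq ?_ (by positivity)
  have h := det3_sq x y z
  rw [dot3_self, dot3_self, dot3_self] at h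
  calc det3 x y z ^ 2 ≤ _ := h
    _ = _ := by ring

/-- the triple product is the determinant -/
theorem trip_det (z : H772R2.NS.M3) (a b : H772R2.NS.E3) :
    ⟪alt a b, z⟫_ℝ = -det3 (show H772R2.NS.E3 from curl z) a b := by
  have h0 : (show H772R2.NS.E3 from curl z) 0 = z (2, 1) - z (1, 2) := by
    rw [curl_apply]; simp
  have h1 : (show H772R2.NS.E3 from curl z) 1 = z (0, 2) - z (2, 0) := by
    rw [curl_apply]; simp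
  have h2 : (show H772R2.NS.E3 from curl z) 2 = z (1, 0) - z (0, 1) := by
    rw [curl_apply]; simp
  unfold det3
  rw [h0, h1, h2, H772R2.NS.inner_M3]
  simp only [Fin.sum_univ_three, alt_apply]
  ring

/-- the triple product and a direction -/
theorem trip_dir (z : H772R2.NS.M3) (a b d : H772R2.NS.E3) (hd : ‖d‖ = 1) :
    |⟪alt a b, z⟫_ℝ| ≤ |⟪(show H772R2.NS.E3 from curl z), d⟫_ℝ| * (‖a‖ * ‖b‖)
      + 2 * ‖z‖ * (|⟪a, d⟫_ℝ| * ‖b‖ + |⟪b, d⟫_ℝ| * ‖a‖) := by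
  set vv : H772R2.NS.E3 := (show H772R2.NS.E3 from curl z) with hvv
  have hn : ‖vv‖ ≤ 2 * ‖z‖ := norm_curl z
  have hdd : dot3 d d = 1 := by rw [dot3_self, hd]; norm_num
  rw [trip_det, abs_neg, det3_dir vv a b d hdd, dot3_inner, dot3_inner, dot3_inner]
  have c1 := abs_det3_le d a b
  have c2 := abs_det3_le vv d b
  have c3 := abs_det3_le vv a d
  rw [hd] at c1 c2 c3
  calc |⟪vv, d⟫_ℝ * det3 d a b + ⟪a, d⟫_ℝ * det3 vv d b + ⟪b, d⟫_ℝ * det3 vv a d|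
      ≤ |⟪vv, d⟫_ℝ * det3 d a b| + |⟪a, d⟫_ℝ * det3 vv d b| + |⟪b, d⟫_ℝ * det3 vv a d| :=
        abs_add_three _ _ _
    _ = |⟪vv, d⟫_ℝ| * |det3 d a b| + |⟪a, d⟫_ℝ| * |det3 vv d b| + |⟪b, d⟫_ℝ| * |det3 vv a d| := by
        rw [abs_mul, abs_mul, abs_mul]
    _ ≤ |⟪vv, d⟫_ℝ| * (1 * ‖a‖ * ‖b‖) + |⟪a, d⟫_ℝ| * (‖vv‖ * 1 * ‖b‖)
        + |⟪b, d⟫_ℝ| * (‖vv‖ * ‖a‖ * 1) := by gcongr
    _ ≤ |⟪vv, d⟫_ℝ| * (1 * ‖a‖ * ‖b‖) + |⟪a, d⟫_ℝ| * (2 * ‖z‖ * 1 * ‖b‖)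
        + |⟪b, d⟫_ℝ| * (2 * ‖z‖ * ‖a‖ * 1) := by gcongr
    _ = _ := by ring

/-- the triple product and the Lamb vector -/
theorem trip_lamb (z : H772R2.NS.M3) (a b : H772R2.NS.E3) :
    |⟪alt a b, z⟫_ℝ|
      ≤ ‖(show H772R2.NS.E3 from Pool.Agent.R772.LV.cross (curl z) a)‖ * ‖b‖ := by
  have h : ⟪alt a b, z⟫_ℝ = -⟪Pool.Agent.R772.LV.lam z a, b⟫_ℝ := by
    rw [H772R2.NS.inner_E3, H772R2.NS.inner_M3]
    simp only [Fin.sum_univ_three, alt_apply, Pool.Agent.R772.LV.lam_apply]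
    ring
  have e : (show H772R2.NS.E3 from Pool.Agent.R772.LV.cross (curl z) a)
      = Pool.Agent.R772.LV.lam z a := Pool.Agent.R772.LV.cross_curl z a
  rw [h, abs_neg, e]
  exact abs_real_inner_le_norm _ _

/-- real arithmetic for one component -/
theorem arith_one {γ A b ws wt κ α β' o : ℝ} (hγ : 0 ≤ γ) (hA : 0 ≤ A) (hb : 0 ≤ b)
    (hws : 0 ≤ ws) (hwt : 0 ≤ wt) (ho : o ≤ ws) (hα : α ^ 2 ≤ ws)
    (hβ' : β' ^ 2 ≤ wt) {β : ℝ} (hβ : β ≤ β' + κ * b) :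
    o * (A * b) + 2 * γ * (α * b + β * A)
      ≤ 2 * κ * (γ * (A * b)) + 2 * (γ ^ 2) + 2 * ((ws + wt) * (A ^ 2 + b ^ 2)) := by
  have h1 : o * (A * b) ≤ ws * (A * b) := mul_le_mul_of_nonneg_right ho (by positivity)
  have h2 : ws * (A * b) ≤ ws * ((A ^ 2 + b ^ 2) / 2) := by
    refine mul_le_mul_of_nonneg_left ?_ hws
    nlinarith [sq_nonneg (A - b)]
  have h3 : 2 * γ * (α * b) ≤ γ ^ 2 + ws * b ^ 2 := by
    have a1 : (α * b) ^ 2 ≤ ws * b ^ 2 := by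
      rw [mul_pow]
      exact mul_le_mul_of_nonneg_right hα (sq_nonneg b)
    nlinarith [sq_nonneg (γ - α * b)]
  have h4 : 2 * γ * (β' * A) ≤ γ ^ 2 + wt * A ^ 2 := by
    have a1 : (β' * A) ^ 2 ≤ wt * A ^ 2 := by
      rw [mul_pow]
      exact mul_le_mul_of_nonneg_right hβ' (sq_nonneg A)
    nlinarith [sq_nonneg (γ - β' * A)]
  have h5 : 2 * γ * (β * A) ≤ 2 * γ * ((β' + κ * b) * A) := by gcongr
  have h6 : 0 ≤ ws * A ^ 2 := by positivity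
  have h7 : 0 ≤ wt * b ^ 2 := by positivity
  have h8 : 0 ≤ ws * b ^ 2 := by positivity
  have h9 : 0 ≤ wt * A ^ 2 := by positivity
  nlinarith

/-- real arithmetic for two components -/
theorem arith_two {γ A b ws wt κ α β : ℝ} (hws : 0 ≤ ws) (hwt : 0 ≤ wt) (hα : α ^ 2 ≤ ws) (hβ : β ^ 2 ≤ wt) :
    γ * (2 * κ * A * b + 2 * α * b + A * (2 * β))
      ≤ 2 * κ * (γ * (A * b)) + 2 * (γ ^ 2) + 2 * ((ws + wt) * (A ^ 2 + b ^ 2)) := by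
  have h3 : 2 * γ * (α * b) ≤ γ ^ 2 + ws * b ^ 2 := by
    have a1 : (α * b) ^ 2 ≤ ws * b ^ 2 := by
      rw [mul_pow]
      exact mul_le_mul_of_nonneg_right hα (sq_nonneg b)
    nlinarith [sq_nonneg (γ - α * b)]
  have h4 : 2 * γ * (β * A) ≤ γ ^ 2 + wt * A ^ 2 := by
    have a1 : (β * A) ^ 2 ≤ wt * A ^ 2 := by
      rw [mul_pow]
      exact mul_le_mul_of_nonneg_right hβ (sq_nonneg A)
    nlinarith [sq_nonneg (γ - β * A)]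
  have h6 : 0 ≤ ws * A ^ 2 := by positivity
  have h7 : 0 ≤ wt * b ^ 2 := by positivity
  have h8 : 0 ≤ ws * b ^ 2 := by positivity
  have h9 : 0 ≤ wt * A ^ 2 := by positivity
  nlinarith

variable {Ω : Set R3} {ν T : ℝ} {u : ℝ → L2 Ω R3} {G : ℝ → L2 Ω Mat} {f : ℝ → L2 Ω R3}

theorem perp_norm (d a : R3) : perp d a = a - ⟪a, d⟫_ℝ • d := rfl

/-- **Direction fields; the set `Ω` is covered by four sets.** -/
theorem pub_cover (hΩ : IsOpen Ω) (hν : 0 ≤ ν) (hT : 0 < T) (hu : IsWeakSolution Ω ν T u G f)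
    {K p : ℝ} (hK : 0 ≤ K) (hp : 8 / 3 ≤ p) (hp4 : p ≤ 4)
    (h4 : p ≠ 8 / 3 → ∫⁻ t in Ioo 0 T, norm4 (u t) ^ p ≠ ⊤)
    {w g : ℝ → R3 → ℝ} (hw : FormBounded Ω T K w) (hg : IntegrableST Ω T g)
    {d : ℝ → R3 → R3} (hd : ∀ t ∈ Ioo 0 T, ∀ x ∈ Ω, ‖d t x‖ = 1)
    (hd2 : ∀ s ∈ Ioo 0 T, ∀ t ∈ Ioo 0 T, ∀ x ∈ Ω,
      ‖d s x - d t x‖ ≤ K * modulus p u s t)
    {A : Fin 4 → Set R3} (hA : Ω ⊆ ⋃ i, A i)
    (hyp : ∀ᵐ t ∂(volume.restrict (Ioo 0 T)), ∀ᵐ x ∂(volume.restrict Ω),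
      (x ∈ A 0 → ‖(u t).fn x‖ ^ 4 ≤ g t x) ∧
      (x ∈ A 1 → ‖perp (d t x) ((u t).fn x)‖ ^ 2 ≤ w t x) ∧
      (x ∈ A 2 → ⟪(u t).fn x, d t x⟫_ℝ ^ 2 ≤ w t x ∧
        |⟪curl ((G t).fn x), d t x⟫_ℝ| ≤ w t x) ∧
      (x ∈ A 3 → ‖Pool.Agent.R772.LV.cross (curl ((G t).fn x)) ((u t).fn x)‖ ^ 2
        ≤ w t x * g t x)) :
    ∀ t ∈ Icc 0 T, energyDefect ν u G f t = 0 := by
  have hΩm : MeasurableSet Ω := IsOpen.measurableSet (α := H772R2.NS.E3) hΩ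
  have hw0 : ∀ᵐ t ∂(volume.restrict (Ioo 0 T)), ∀ x, 0 ≤ w t x := by
    obtain ⟨B, ρ, hB, hρ, hint, hwt⟩ := hw
    filter_upwards [hwt] with t ht
    exact ht.nonneg
  have hg0 : ∀ᵐ t ∂(volume.restrict (Ioo 0 T)), ∀ x, 0 ≤ g t x := by
    obtain ⟨b, hb, hgt⟩ := hg
    filter_upwards [hgt] with t ht
    exact ht.2.1
  refine pub_form hΩ hν hT hu hK hp hp4 h4 hw hg (K' := 2 * K + 2) (by positivity) ?_
  filter_upwards [hyp, hw0, hg0, ae_restrict_mem measurableSet_Ioo] with t ht hwt hgt htI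
  filter_upwards [hyp, hw0, hg0, ae_restrict_mem measurableSet_Ioo] with s hs hws hgs hsI
  filter_upwards [ht, hs, ae_restrict_mem hΩm] with x hx hy hxΩ
  set a : R3 := (u s).fn x with ha
  set b : R3 := (u t).fn x with hb
  set z : Mat := (G s).fn x with hz
  set m := modulus p u s t with hm
  have hm0 : 0 ≤ m := modulus_nonneg p u s t
  have n1 := norm_nonneg a
  have n2 := norm_nonneg b
  have n3 := norm_nonneg z
  have w1 := hws x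
  have w2 := hwt x
  have g1 := hgs x
  have g2 := hgt x
  have v1 := hd s hsI x hxΩ
  have v2 := hd t htI x hxΩ
  have v3 := hd2 s hsI t htI x hxΩ
  have q1 : 0 ≤ ‖z‖ ^ 2 + ‖(G t).fn x‖ ^ 2 := by positivity
  have q2 : 0 ≤ (w s x + w t x) * (‖a‖ ^ 2 + ‖b‖ ^ 2) := by positivity
  have q3 : 0 ≤ m * (‖z‖ * (‖a‖ * ‖b‖)) := by positivity
  have fin : ∀ c : ℝ, c ≤ 2 * (K * m) * (‖z‖ * (‖a‖ * ‖b‖)) + 2 * (‖z‖ ^ 2)
      + 2 * ((w s x + w t x) * (‖a‖ ^ 2 + ‖b‖ ^ 2)) →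
      c ≤ (2 * K + 2) * (m * (‖z‖ * (‖a‖ * ‖b‖)) + (‖z‖ ^ 2 + ‖(G t).fn x‖ ^ 2)
        + (w s x + w t x) * (‖a‖ ^ 2 + ‖b‖ ^ 2)) + (g s x + g t x) := by
    intro c hc
    refine hc.trans ?_
    have r1 : 0 ≤ K * (‖z‖ ^ 2 + ‖(G t).fn x‖ ^ 2) := by positivity
    have r2 : 0 ≤ K * ((w s x + w t x) * (‖a‖ ^ 2 + ‖b‖ ^ 2)) := by positivity
    have r3 : 0 ≤ ‖(G t).fn x‖ ^ 2 := by positivity
    nlinarith
  obtain ⟨i, hi⟩ := mem_iUnion.1 (hA hxΩ)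
  fin_cases i
  · -- fourth powers
    have e1 := hx.1 hi
    have e2 := hy.1 hi
    have h3 := abs_trip_le z a b (norm_alt_le (a : H772R2.NS.E3) (b : H772R2.NS.E3))
    have h3' : |⟪z, wedge a b⟫_ℝ| ≤ ‖z‖ * (2 * (‖a‖ * ‖b‖)) := h3
    refine h3'.trans ?_
    have h5 : ‖z‖ * (2 * (‖a‖ * ‖b‖)) ≤ 2 * ‖z‖ ^ 2 + (g s x + g t x) := by
      have a1 : (‖a‖ * ‖b‖) ^ 2 ≤ (‖a‖ ^ 4 + ‖b‖ ^ 4) / 2 := by
        nlinarith [sq_nonneg (‖a‖ ^ 2 - ‖b‖ ^ 2)]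
      nlinarith [sq_nonneg (‖z‖ - ‖a‖ * ‖b‖), sq_nonneg (‖z‖), sq_nonneg (‖a‖ * ‖b‖)]
    have r1 : 0 ≤ K * (‖z‖ ^ 2 + ‖(G t).fn x‖ ^ 2) := by positivity
    have r2 : 0 ≤ K * ((w s x + w t x) * (‖a‖ ^ 2 + ‖b‖ ^ 2)) := by positivity
    have r3 : 0 ≤ ‖(G t).fn x‖ ^ 2 := by positivity
    have r4 : 0 ≤ K * (m * (‖z‖ * (‖a‖ * ‖b‖))) := by positivity
    nlinarith
  · -- two components
    have e1 := hx.2.1 hi
    have e2 := hy.2.1 hi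
    have h3 := abs_trip_le z a b (norm_alt_dir (a := a) (b := b) v1 v2 v3)
    refine fin _ (h3.trans ?_)
    exact arith_two w1 w2 e2 e1
  · -- one component of the velocity and of the vorticity
    obtain ⟨e1, e1'⟩ := hx.2.2.1 hi
    obtain ⟨e2, e2'⟩ := hy.2.2.1 hi
    have h2 := wedge_eq a b
    have h3 : ⟪alt a b, z⟫_ℝ = ⟪z, wedge a b⟫_ℝ := by
      rw [← h2]
      exact real_inner_comm _ _
    have h4' : |⟪z, wedge a b⟫_ℝ| ≤ |⟪curl z, d s x⟫_ℝ| * (‖a‖ * ‖b‖)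
        + 2 * ‖z‖ * (|⟪a, d s x⟫_ℝ| * ‖b‖ + |⟪b, d s x⟫_ℝ| * ‖a‖) := by
      rw [← h3]
      exact trip_dir z a b (d s x) v1
    refine fin _ (h4'.trans ?_)
    have h5 : |⟪b, d s x⟫_ℝ| ≤ |⟪b, d t x⟫_ℝ| + K * m * ‖b‖ := by
      have e3 : ⟪b, d s x⟫_ℝ = ⟪b, d t x⟫_ℝ + ⟪b, d s x - d t x⟫_ℝ := by
        rw [inner_sub_right]; ring
      rw [e3]
      refine (abs_add_le _ _).trans (add_le_add le_rfl ?_)
      refine (abs_real_inner_le_norm _ _).trans ?_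
      rw [mul_comm]
      exact mul_le_mul_of_nonneg_right v3 n2
    exact arith_one n3 n1 n2 w1 w2 e2' (by rw [sq_abs]; exact e2) (by rw [sq_abs]; exact e1) h5
  · -- the Lamb vector
    have e2 := hy.2.2.2 hi
    have h2 := wedge_eq a b
    have h3 : ⟪alt a b, z⟫_ℝ = ⟪z, wedge a b⟫_ℝ := by
      rw [← h2]
      exact real_inner_comm _ _
    have h4' : |⟪z, wedge a b⟫_ℝ| ≤ ‖Pool.Agent.R772.LV.cross (curl z) a‖ * ‖b‖ := by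
      rw [← h3]
      exact trip_lamb z a b
    refine h4'.trans ?_
    set c := ‖Pool.Agent.R772.LV.cross (curl z) a‖ with hc
    have c0 : 0 ≤ c := norm_nonneg _
    have h5 : c * ‖b‖ ≤ g s x + w s x * ‖b‖ ^ 2 := by
      have a1 : (c * ‖b‖) ^ 2 ≤ (g s x + w s x * ‖b‖ ^ 2) ^ 2 := by
        have a2 : (c * ‖b‖) ^ 2 ≤ w s x * g s x * ‖b‖ ^ 2 := by
          rw [mul_pow]
          exact mul_le_mul_of_nonneg_right e2 (sq_nonneg _)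
        have a3 : 0 ≤ g s x * (w s x * ‖b‖ ^ 2) := by positivity
        nlinarith [sq_nonneg (g s x), sq_nonneg (w s x * ‖b‖ ^ 2)]
      have a4 : 0 ≤ g s x + w s x * ‖b‖ ^ 2 := by positivity
      exact (sq_le_sq₀ (by positivity) a4).1 a1
    have r1 : 0 ≤ K * (‖z‖ ^ 2 + ‖(G t).fn x‖ ^ 2) := by positivity
    have r2 : 0 ≤ K * ((w s x + w t x) * (‖a‖ ^ 2 + ‖b‖ ^ 2)) := by positivity
    have r3 : 0 ≤ K * (m * (‖z‖ * (‖a‖ * ‖b‖))) := by positivity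
    have r4 : 0 ≤ w s x * ‖a‖ ^ 2 := by positivity
    have r5 : 0 ≤ w t x * (‖a‖ ^ 2 + ‖b‖ ^ 2) := by positivity
    nlinarith

end Pool.Agent.P8H36.EE
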