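import Pool.Agent.P8H36.EE.Rot
import Pool.Agent.P8H36.EE.Vec
import Pool.Agent.P8H36.EE.PubDef2

/-!
Energy equality for weak solutions with a rotational symmetry.
-/

set_option autoImplicit false
set_option linter.unusedSectionVars false

open MeasureTheory Set Filter Topology
open scoped InnerProductSpace ENNReal ContDiff NNReal

namespace Pool.Agent.P8H36.EE

open H772R2.NS.Pub Pool.Agent.TH301.EQ
open Pool.Agent.R772.LV (curl curl_apply norm_curl co co_apply vec_apply)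

section vec

open H772R2.NS

theorem norm_sub_proj {d x : E3} (hd : ‖d‖ = 1) : ‖x - ⟪x, d⟫_ℝ • d‖ ≤ ‖x‖ := by
  have h : ‖x - ⟪x, d⟫_ℝ • d‖ ^ 2 = ‖x‖ ^ 2 - ⟪x, d⟫_ℝ ^ 2 := by
    rw [norm_sub_sq_real, inner_smul_right, norm_smul, hd, mul_one, Real.norm_eq_abs, sq_abs]
    ring
  refine (sq_le_sq₀ (norm_nonneg _) (norm_nonneg _)).1 ?_
  rw [h]
  have := sq_nonneg ⟪x, d⟫_ℝ
  linarith

theorem alt_self (x : E3) : alt x x = 0 := by
  ext p
  simp only [alt_apply, PiLp.zero_apply]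
  ring

/-- the alternating product of two vectors which are nearly parallel to horizontal unit vectors -/
theorem norm_alt_hor {d d' a b n : E3} (hn : ‖n‖ = 1) (h : ‖d‖ = 1) (h' : ‖d'‖ = 1)
    (hd : ⟪d, n⟫_ℝ = 0) (hd' : ⟪d', n⟫_ℝ = 0) {k : ℝ} (hk : ‖d - d'‖ ≤ k) :
    ‖alt a b‖ ≤ 2 * k * ‖a‖ * ‖b‖
      + 4 * (‖a - ⟪a, n⟫_ℝ • n‖ * ‖b - ⟪b, d'⟫_ℝ • d'‖)
      + 4 * (‖a - ⟪a, d⟫_ℝ • d‖ * ‖b - ⟪b, n⟫_ℝ • n‖) := by
  set α := ⟪a, d⟫_ℝ with hα
  set β := ⟪b, d'⟫_ℝ with hβ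
  set ζ := ⟪a, n⟫_ℝ with hζ
  set η := ⟪b, n⟫_ℝ with hη
  set a' := a - α • d with ha'
  set b' := b - β • d' with hb'
  set A := a - ζ • n with hA
  set B := b - η • n with hB
  have eA : ⟪A, d⟫_ℝ = α := by
    rw [hA, inner_sub_left, real_inner_smul_left, real_inner_comm d n, hd, mul_zero, sub_zero]
  have eB : ⟪B, d'⟫_ℝ = β := by
    rw [hB, inner_sub_left, real_inner_smul_left, real_inner_comm d' n, hd', mul_zero, sub_zero]
  have hαA : |α| ≤ ‖A‖ := by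
    have := abs_real_inner_le_norm A d
    rwa [h, mul_one, eA] at this
  have hβB : |β| ≤ ‖B‖ := by
    have := abs_real_inner_le_norm B d'
    rwa [h', mul_one, eB] at this
  have hαa : |α| ≤ ‖a‖ := by
    have := abs_real_inner_le_norm a d
    rwa [h, mul_one] at this
  have hβb : |β| ≤ ‖b‖ := by
    have := abs_real_inner_le_norm b d'
    rwa [h', mul_one] at this
  have hζa : |ζ| ≤ ‖a'‖ := by
    have e : ⟪a', n⟫_ℝ = ζ := by
      rw [ha', inner_sub_left, real_inner_smul_left, hd, mul_zero, sub_zero]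
    have := abs_real_inner_le_norm a' n
    rwa [hn, mul_one, e] at this
  set A' := A - ⟪A, d⟫_ℝ • d with hA'
  set B' := B - ⟪B, d'⟫_ℝ • d' with hB'
  have nA : ‖A'‖ ≤ ‖A‖ := norm_sub_proj h
  have nB : ‖B'‖ ≤ ‖B‖ := norm_sub_proj h'
  have d1 : a' = A' + ζ • n := by rw [hA', eA, hA, ha']; abel
  have d2 : b' = B' + η • n := by rw [hB', eB, hB, hb']; abel
  have e1 : alt a b = (alt A' b' + ζ • alt n B') + β • alt a' d'
      + α • (β • alt d d' + alt d b') := by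
    have h1 : a = a' + α • d := by rw [ha']; abel
    have h2 : b = b' + β • d' := by rw [hb']; abel
    have h3 : alt a' b' = alt A' b' + ζ • alt n B' := by
      calc alt a' b' = alt (A' + ζ • n) b' := by rw [← d1]
        _ = alt A' b' + ζ • alt n b' := by rw [alt_add_left, alt_smul_left]
        _ = alt A' b' + ζ • alt n (B' + η • n) := by rw [← d2]
        _ = _ := by rw [alt_add_right, alt_smul_right, alt_self, smul_zero, add_zero]
    calc alt a b = alt (a' + α • d) (b' + β • d') := by rw [← h1, ← h2]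
      _ = alt a' b' + β • alt a' d' + α • (β • alt d d' + alt d b') := by
          rw [alt_add_left, alt_smul_left, alt_add_right, alt_smul_right, alt_add_right,
            alt_smul_right, add_comm (alt d b')]
      _ = _ := by rw [h3]
  have n1 : ‖alt A' b'‖ ≤ 2 * (‖A'‖ * ‖b'‖) := norm_alt_le _ _
  have n2 : ‖alt n B'‖ ≤ 2 * ‖B'‖ := by
    have := norm_alt_le n B'
    rwa [hn, one_mul] at this
  have n3 : ‖alt a' d'‖ ≤ 2 * ‖a'‖ := by
    have := norm_alt_le a' d'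
    rwa [h', mul_one] at this
  have n4 : ‖alt d b'‖ ≤ 2 * ‖b'‖ := by
    have := norm_alt_le d b'
    rwa [h, one_mul] at this
  have n5 : ‖alt d d'‖ ≤ 2 * k := (norm_alt_unit h h').trans (by linarith)
  have hk0 : 0 ≤ k := (norm_nonneg _).trans hk
  have hA0 := norm_nonneg A
  have hB0 := norm_nonneg B
  have ha0 := norm_nonneg a'
  have hb0 := norm_nonneg b'
  rw [e1]
  calc ‖(alt A' b' + ζ • alt n B') + β • alt a' d' + α • (β • alt d d' + alt d b')‖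
      ≤ ‖(alt A' b' + ζ • alt n B') + β • alt a' d'‖ + ‖α • (β • alt d d' + alt d b')‖ :=
        norm_add_le _ _
    _ ≤ (‖alt A' b' + ζ • alt n B'‖ + ‖β • alt a' d'‖) + |α| * ‖β • alt d d' + alt d b'‖ := by
        refine add_le_add (norm_add_le _ _) (le_of_eq ?_)
        rw [norm_smul, Real.norm_eq_abs]
    _ ≤ ((‖alt A' b'‖ + |ζ| * ‖alt n B'‖) + |β| * ‖alt a' d'‖)
        + |α| * (|β| * ‖alt d d'‖ + ‖alt d b'‖) := by
        refine add_le_add (add_le_add ?_ (le_of_eq ?_)) (mul_le_mul_of_nonneg_left ?_ (abs_nonneg _))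
        · refine (norm_add_le _ _).trans ?_
          rw [norm_smul, Real.norm_eq_abs]
        · rw [norm_smul, Real.norm_eq_abs]
        · refine (norm_add_le _ _).trans ?_
          rw [norm_smul, Real.norm_eq_abs]
    _ ≤ ((2 * (‖A‖ * ‖b'‖) + ‖a'‖ * (2 * ‖B‖)) + ‖B‖ * (2 * ‖a'‖))
        + (‖a‖ * (‖b‖ * (2 * k)) + ‖A‖ * (2 * ‖b'‖)) := by
        refine add_le_add (add_le_add (add_le_add ?_ ?_) ?_) ?_
        · exact n1.trans (by gcongr)
        · exact mul_le_mul hζa (n2.trans (by gcongr)) (norm_nonneg _) ha0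
        · exact mul_le_mul hβB n3 (norm_nonneg _) hB0
        · rw [mul_add]
          refine add_le_add ?_ ?_
          · exact mul_le_mul hαa (mul_le_mul hβb n5 (norm_nonneg _) (norm_nonneg _))
              (by positivity) (norm_nonneg _)
          · exact mul_le_mul hαA n4 (norm_nonneg _) hA0
    _ = _ := by ring

/-- the triple product and the vertical direction -/
theorem trip_vert (z : M3) (a b : E3) :
    |⟪alt a b, z⟫_ℝ| ≤ |(show E3 from curl z) 2| * (√(r2 a) * √(r2 b))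
      + 2 * ‖z‖ * (|a 2| * √(r2 b) + |b 2| * √(r2 a)) := by
  set o : E3 := (show E3 from curl z) with ho
  have hn : ‖o‖ ≤ 2 * ‖z‖ := norm_curl z
  have ha := r2_nonneg a
  have hb := r2_nonneg b
  have e1 : det3 o a b = o 2 * (a 0 * b 1 - a 1 * b 0) + b 2 * (o 0 * a 1 - o 1 * a 0)
      - a 2 * (o 0 * b 1 - o 1 * b 0) := by
    unfold det3
    ring
  have k1 : ∀ x y : E3, |x 0 * y 1 - x 1 * y 0| ≤ √(r2 x) * √(r2 y) := fun x y => by
    rw [← Real.sqrt_mul (r2_nonneg x)]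
    refine Real.abs_le_sqrt ?_
    unfold r2
    nlinarith [sq_nonneg (x 0 * y 0 + x 1 * y 1)]
  have k2 : √(r2 o) ≤ ‖o‖ := by
    refine Real.sqrt_le_iff.2 ⟨norm_nonneg _, ?_⟩
    rw [norm_sq3]
    unfold r2
    have := sq_nonneg (o 2)
    linarith
  have td : ⟪alt a b, z⟫_ℝ = -det3 o a b := trip_det z a b
  rw [td, abs_neg, e1]
  have c1 := k1 a b
  have c2 := k1 o a
  have c3 := k1 o b
  have s1 := Real.sqrt_nonneg (r2 a)
  have s2 := Real.sqrt_nonneg (r2 b)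
  have k3 : √(r2 o) ≤ 2 * ‖z‖ := k2.trans hn
  calc |o 2 * (a 0 * b 1 - a 1 * b 0) + b 2 * (o 0 * a 1 - o 1 * a 0)
        - a 2 * (o 0 * b 1 - o 1 * b 0)|
      ≤ |o 2 * (a 0 * b 1 - a 1 * b 0) + b 2 * (o 0 * a 1 - o 1 * a 0)|
        + |a 2 * (o 0 * b 1 - o 1 * b 0)| := abs_sub _ _
    _ ≤ |o 2| * |a 0 * b 1 - a 1 * b 0| + |b 2| * |o 0 * a 1 - o 1 * a 0|
        + |a 2| * |o 0 * b 1 - o 1 * b 0| := by
        refine add_le_add ((abs_add_le _ _).trans (le_of_eq ?_)) (le_of_eq ?_)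
        · rw [abs_mul, abs_mul]
        · rw [abs_mul]
    _ ≤ |o 2| * (√(r2 a) * √(r2 b)) + |b 2| * (2 * ‖z‖ * √(r2 a))
        + |a 2| * (2 * ‖z‖ * √(r2 b)) := by
        refine add_le_add (add_le_add ?_ ?_) ?_
        · exact mul_le_mul_of_nonneg_left c1 (abs_nonneg _)
        · exact mul_le_mul_of_nonneg_left (c2.trans (by gcongr)) (abs_nonneg _)
        · exact mul_le_mul_of_nonneg_left (c3.trans (by gcongr)) (abs_nonneg _)
    _ = _ := by ring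

end vec

/-- real arithmetic, two components; `A`, `B` are the horizontal parts -/
theorem arith_h {γ a b A B q ws wt κ α β : ℝ} (hA : 0 ≤ A) (hB : 0 ≤ B)
    (hAa : A ≤ a) (hBb : B ≤ b)
    (hws : 0 ≤ ws) (hwt : 0 ≤ wt) (hα : α ^ 2 ≤ q + ws) (hβ : β ^ 2 ≤ q + wt) :
    γ * (2 * κ * a * b + 4 * (A * β) + 4 * (α * B))
      ≤ 2 * κ * (γ * (a * b)) + 4 * (γ ^ 2) + 2 * (q * A ^ 2 + q * B ^ 2)
        + 2 * ((ws + wt) * (a ^ 2 + b ^ 2)) := by
  have h3 : 2 * γ * (A * β) ≤ γ ^ 2 + (q + wt) * A ^ 2 := by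
    have a1 : (A * β) ^ 2 ≤ (q + wt) * A ^ 2 := by
      rw [mul_pow, mul_comm]
      exact mul_le_mul_of_nonneg_right hβ (sq_nonneg A)
    nlinarith [sq_nonneg (γ - A * β)]
  have h4 : 2 * γ * (α * B) ≤ γ ^ 2 + (q + ws) * B ^ 2 := by
    have a1 : (α * B) ^ 2 ≤ (q + ws) * B ^ 2 := by
      rw [mul_pow]
      exact mul_le_mul_of_nonneg_right hα (sq_nonneg B)
    nlinarith [sq_nonneg (γ - α * B)]
  have hA2 : A ^ 2 ≤ a ^ 2 := pow_le_pow_left₀ hA hAa 2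
  have hB2 : B ^ 2 ≤ b ^ 2 := pow_le_pow_left₀ hB hBb 2
  have h5 : wt * A ^ 2 ≤ wt * a ^ 2 := mul_le_mul_of_nonneg_left hA2 hwt
  have h6 : ws * B ^ 2 ≤ ws * b ^ 2 := mul_le_mul_of_nonneg_left hB2 hws
  have h7 : 0 ≤ ws * a ^ 2 := by positivity
  have h8 : 0 ≤ wt * b ^ 2 := by positivity
  nlinarith

/-- real arithmetic, the vertical components -/
theorem arith_v {γ a b A B q ws wt α β o : ℝ} (hA : 0 ≤ A) (hB : 0 ≤ B)
    (hAa : A ≤ a) (hBb : B ≤ b) (hq : 0 ≤ q)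
    (hws : 0 ≤ ws) (hwt : 0 ≤ wt) (ho : o ≤ q + ws) (hα : α ^ 2 ≤ q + ws) (hβ : β ^ 2 ≤ q + wt) :
    o * (A * B) + 2 * γ * (α * B + β * A)
      ≤ 4 * (γ ^ 2) + 2 * (q * A ^ 2 + q * B ^ 2) + 2 * ((ws + wt) * (a ^ 2 + b ^ 2)) := by
  have h0 : o * (A * B) ≤ (q + ws) * ((A ^ 2 + B ^ 2) / 2) := by
    refine (mul_le_mul_of_nonneg_right ho (by positivity)).trans
      (mul_le_mul_of_nonneg_left ?_ (by positivity))
    nlinarith [sq_nonneg (A - B)]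
  have h3 : 2 * γ * (β * A) ≤ γ ^ 2 + (q + wt) * A ^ 2 := by
    have a1 : (β * A) ^ 2 ≤ (q + wt) * A ^ 2 := by
      rw [mul_pow]
      exact mul_le_mul_of_nonneg_right hβ (sq_nonneg A)
    nlinarith [sq_nonneg (γ - β * A)]
  have h4 : 2 * γ * (α * B) ≤ γ ^ 2 + (q + ws) * B ^ 2 := by
    have a1 : (α * B) ^ 2 ≤ (q + ws) * B ^ 2 := by
      rw [mul_pow]
      exact mul_le_mul_of_nonneg_right hα (sq_nonneg B)
    nlinarith [sq_nonneg (γ - α * B)]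
  have hA2 : A ^ 2 ≤ a ^ 2 := pow_le_pow_left₀ hA hAa 2
  have hB2 : B ^ 2 ≤ b ^ 2 := pow_le_pow_left₀ hB hBb 2
  have h5 : wt * A ^ 2 ≤ wt * a ^ 2 := mul_le_mul_of_nonneg_left hA2 hwt
  have h6 : ws * B ^ 2 ≤ ws * b ^ 2 := mul_le_mul_of_nonneg_left hB2 hws
  have h6' : ws * A ^ 2 ≤ ws * a ^ 2 := mul_le_mul_of_nonneg_left hA2 hws
  have h7 : 0 ≤ ws * a ^ 2 := by positivity
  have h8 : 0 ≤ wt * b ^ 2 := by positivity
  have h9 : 0 ≤ q * A ^ 2 := by positivity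
  have h10 : 0 ≤ q * B ^ 2 := by positivity
  have h11 : 0 ≤ γ ^ 2 := sq_nonneg _
  have h12 : 0 ≤ ws * b ^ 2 := by positivity
  have h13 : 0 ≤ wt * a ^ 2 := by positivity
  nlinarith

/-! ### the public level -/

variable {Ω : Set R3} {ν T : ℝ} {u : ℝ → L2 Ω R3} {G : ℝ → L2 Ω Mat} {f : ℝ → L2 Ω R3}

theorem rotZ_eq (α : ℝ) (x : H772R2.NS.E3) :
    (show H772R2.NS.E3 from rotZ α x) = rt α x := by
  have e : ∀ j, (show H772R2.NS.E3 from rotZ α x) j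
      = (Real.cos α * x 0 - Real.sin α * x 1) * (if j = 0 then (1 : ℝ) else 0)
        + (Real.sin α * x 0 + Real.cos α * x 1) * (if j = 1 then (1 : ℝ) else 0)
        + x 2 * (if j = 2 then (1 : ℝ) else 0) := fun j => by
    refine (vec_apply _ _ _ j).trans ?_
    have c : ∀ i, co x i = x i := co_apply x
    rw [c, c, c]
  refine E3_ext ?_ ?_ ?_
  · rw [e, rt_0]; simp
  · rw [e, rt_1]; simp
  · rw [e, rt_2]; simp

theorem horSq_eq (x : H772R2.NS.E3) : horSq x = r2 x := by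
  have c : ∀ i, co x i = x i := co_apply x
  unfold horSq r2
  rw [c, c]

theorem norm_e1 (k : Fin 3) : ‖e k‖ = 1 := by
  have h : ‖(EuclideanSpace.single k (1 : ℝ) : H772R2.NS.E3)‖ = 1 := by simp
  exact h

theorem horSq_nonneg (x : R3) : 0 ≤ horSq x := add_nonneg (sq_nonneg _) (sq_nonneg _)

/-- **The Hardy inequality for symmetric fields.** -/
theorem pub_hardy (hΩ : IsOpen Ω) {α : ℝ} (hα : 0 < α) (hcos : Real.cos α ≠ 1)
    (hinv : ∀ x, rotZ α x ∈ Ω ↔ x ∈ Ω) {v : L2 Ω R3} {z : L2 Ω Mat} (hv : (v, z) ∈ H1graph Ω)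
    (hs : RotInvariant α v) :
    ∫⁻ x in Ω, ENNReal.ofReal (horSq (v.fn x) / horSq x)
      ≤ ENNReal.ofReal (α ^ 2 / (2 - 2 * Real.cos α) * ‖z‖ ^ 2) := by
  have hΩm : MeasurableSet (show Set H772R2.NS.E3 from Ω) :=
    IsOpen.measurableSet (α := H772R2.NS.E3) hΩ
  have hinv' : ∀ x : H772R2.NS.E3, rt α x ∈ (show Set H772R2.NS.E3 from Ω)
      ↔ x ∈ (show Set H772R2.NS.E3 from Ω) := fun x => by
    rw [← rotZ_eq]
    exact hinv x
  let v' : H772R2.NS.L2V (show Set H772R2.NS.E3 from Ω) := v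
  let z' : H772R2.NS.L2M (show Set H772R2.NS.E3 from Ω) := z
  have hW : (v', z') ∈ H772R2.NS.graphW (show Set H772R2.NS.E3 from Ω) :=
    mem_pub.2 hv
  have hs' : ∀ᵐ x ∂((volume : Measure H772R2.NS.E3).restrict (show Set H772R2.NS.E3 from Ω)),
      v' (rt α x) = rt α (v' x) := by
    refine Filter.Eventually.mono hs fun x hx => ?_
    rw [← rotZ_eq, ← rotZ_eq]
    exact hx
  have key := rt_sym hΩm hα hcos hinv' hW hs'
  refine le_trans (le_of_eq ?_) key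
  have e : ∀ x : H772R2.NS.E3, ENNReal.ofReal (horSq (v.fn x) / horSq x)
      = ENNReal.ofReal (r2 (v' x) / r2 x) := fun x => by
    rw [← horSq_eq, ← horSq_eq]
    rfl
  exact lintegral_congr e

theorem meas_quot (v : L2 Ω R3) :
    AEMeasurable (fun x => horSq (v.fn x) / horSq x) (volume.restrict Ω) := by
  let v' : H772R2.NS.L2V (show Set H772R2.NS.E3 from Ω) := v
  have mr : Measurable fun x : H772R2.NS.E3 => r2 x :=
    ((((EuclideanSpace.proj (𝕜 := ℝ) (0 : Fin 3) : H772R2.NS.E3 →L[ℝ] ℝ).continuous.pow 2).add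
      ((EuclideanSpace.proj (𝕜 := ℝ) (1 : Fin 3) : H772R2.NS.E3 →L[ℝ] ℝ).continuous.pow
        2))).measurable
  have m1 : AEMeasurable (fun x => r2 (v' x))
      ((volume : Measure H772R2.NS.E3).restrict (show Set H772R2.NS.E3 from Ω)) :=
    mr.comp_aemeasurable (Lp.aestronglyMeasurable v').aemeasurable
  have m2 : AEMeasurable (fun x => r2 (v' x) / r2 x)
      ((volume : Measure H772R2.NS.E3).restrict (show Set H772R2.NS.E3 from Ω)) :=
    m1.div mr.aemeasurable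
  have e : ∀ x : H772R2.NS.E3, r2 (v' x) / r2 x = horSq (v.fn x) / horSq x := fun x => by
    rw [← horSq_eq, ← horSq_eq]
    rfl
  exact m2.congr (Eventually.of_forall e)

theorem inner_e2 (a : H772R2.NS.E3) : ⟪(a : R3), e 2⟫_ℝ = a 2 := by
  have h : co a 2 = a 2 := co_apply a 2
  rw [← h]
  exact real_inner_comm _ _

theorem norm_hor (a : R3) : ‖a - ⟪a, e 2⟫_ℝ • e 2‖ = √(horSq a) := by
  have h : ‖a - ⟪a, e 2⟫_ℝ • e 2‖ ^ 2 = horSq a := by
    have h1 := norm_sub_sq_real a (⟪a, e 2⟫_ℝ • e 2)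
    rw [inner_smul_right, norm_smul, norm_e1, mul_one, Real.norm_eq_abs,
      sq_abs] at h1
    have h2 : ‖a‖ ^ 2 = horSq a + ⟪a, e 2⟫_ℝ ^ 2 :=
      (norm_sq3 a).trans (congrArg₂ (· + ·) (horSq_eq a).symm
        (congrArg (· ^ 2) (inner_e2 a).symm))
    rw [h1, h2]
    ring
  rw [← h, Real.sqrt_sq (norm_nonneg _)]

theorem sqrt_hor_le (a : R3) : √(horSq a) ≤ ‖a‖ := by
  rw [← norm_hor]
  exact norm_sub_proj (x := (a : H772R2.NS.E3)) (norm_e1 2)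

/-- **Energy equality for weak solutions with a rotational symmetry.** -/
theorem pub_sym (hΩ : IsOpen Ω) (hν : 0 ≤ ν) (hT : 0 < T) (hu : IsWeakSolution Ω ν T u G f)
    {α : ℝ} (hα : 0 < α) (hcos : Real.cos α ≠ 1) (hinv : ∀ x, rotZ α x ∈ Ω ↔ x ∈ Ω)
    (hsym : ∀ᵐ t ∂(volume.restrict (Ioo 0 T)), RotInvariant α (u t))
    {K p : ℝ} (hK : 0 ≤ K) (hp : 8 / 3 ≤ p) (hp4 : p ≤ 4)
    (h4 : p ≠ 8 / 3 → ∫⁻ t in Ioo 0 T, norm4 (u t) ^ p ≠ ⊤)
    {w g : ℝ → R3 → ℝ} (hw : FormBounded Ω T K w) (hg : IntegrableST Ω T g)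
    {d : ℝ → R3 → R3} (hd : ∀ t ∈ Ioo 0 T, ∀ x ∈ Ω, ‖d t x‖ = 1 ∧ ⟪d t x, e 2⟫_ℝ = 0)
    (hd2 : ∀ s ∈ Ioo 0 T, ∀ t ∈ Ioo 0 T, ∀ x ∈ Ω,
      ‖d s x - d t x‖ ≤ K * modulus p u s t)
    {A : Fin 3 → Set R3} (hA : Ω ⊆ ⋃ i, A i)
    (hyp : ∀ᵐ t ∂(volume.restrict (Ioo 0 T)), ∀ᵐ x ∂(volume.restrict Ω),
      (x ∈ A 0 → ‖(u t).fn x‖ ^ 4 ≤ g t x) ∧
      (x ∈ A 1 → ‖perp (d t x) ((u t).fn x)‖ ^ 2 ≤ K / horSq x + w t x) ∧
      (x ∈ A 2 → ⟪(u t).fn x, e 2⟫_ℝ ^ 2 ≤ K / horSq x + w t x ∧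
        |⟪curl ((G t).fn x), e 2⟫_ℝ| ≤ K / horSq x + w t x)) :
    ∀ t ∈ Icc 0 T, energyDefect ν u G f t = 0 := by
  have hΩm : MeasurableSet Ω := IsOpen.measurableSet (α := H772R2.NS.E3) hΩ
  have hw0 : ∀ᵐ t ∂(volume.restrict (Ioo 0 T)), ∀ x, 0 ≤ w t x := by
    obtain ⟨B, ρ, hB, hρ, hint, hwt⟩ := hw
    filter_upwards [hwt] with t ht
    exact ht.nonneg
  have hg0 : ∀ᵐ t ∂(volume.restrict (Ioo 0 T)), ∀ x, 0 ≤ g t x := by
    obtain ⟨b, hb, hgt⟩ := hg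
    filter_upwards [hgt] with t ht
    exact ht.2.1
  have hC : 0 ≤ α ^ 2 / (2 - 2 * Real.cos α) := by
    have h1 := Real.cos_le_one α
    have : 0 ≤ 2 - 2 * Real.cos α := by linarith
    positivity
  set C := α ^ 2 / (2 - 2 * Real.cos α) with hCdef
  have hG2 : Integrable (fun t => ‖G t‖ ^ 2) (volume.restrict (Ioo 0 T)) :=
    (memLp_two_iff_integrable_sq_norm hu.gradL2.aestronglyMeasurable).mp hu.gradL2
  have hg' : IntegrableST Ω T (fun t x => g t x + 2 * K * (horSq ((u t).fn x) / horSq x)) := by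
    obtain ⟨b, hb, hgt⟩ := hg
    have hb' : Integrable b (volume.restrict (Ioo 0 T)) := hb
    have hG3 : Integrable (fun t => 2 * K * (C * ‖G t‖ ^ 2)) (volume.restrict (Ioo 0 T)) :=
      (hG2.const_mul C).const_mul (2 * K)
    have hi : Integrable (fun t => |b t| + 2 * K * (C * ‖G t‖ ^ 2))
      (volume.restrict (Ioo 0 T)) := hb'.abs.add hG3
    refine ⟨fun t => |b t| + 2 * K * (C * ‖G t‖ ^ 2), hi, ?_⟩
    filter_upwards [hgt, hsym, hu.grad] with t ht hst hGt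
    have q0 : ∀ x, 0 ≤ horSq ((u t).fn x) / horSq x := fun x =>
      div_nonneg (horSq_nonneg _) (horSq_nonneg _)
    have mq := meas_quot (u t)
    refine ⟨ht.1.add (mq.const_mul _), fun x => add_nonneg (ht.2.1 x)
      (mul_nonneg (by positivity) (q0 x)), ?_⟩
    have e1 : ∀ x, ENNReal.ofReal (g t x + 2 * K * (horSq ((u t).fn x) / horSq x))
        = ENNReal.ofReal (g t x)
          + ENNReal.ofReal (2 * K) * ENNReal.ofReal (horSq ((u t).fn x) / horSq x) := fun x => by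
      rw [ENNReal.ofReal_add (ht.2.1 x) (mul_nonneg (by positivity) (q0 x)),
        ENNReal.ofReal_mul (by positivity)]
    simp_rw [e1]
    rw [lintegral_add_left' ht.1.ennreal_ofReal, lintegral_const_mul' _ _ ENNReal.ofReal_ne_top,
      ENNReal.ofReal_add (abs_nonneg _) (by positivity),
      ENNReal.ofReal_mul (p := 2 * K) (by positivity)]
    exact add_le_add (ht.2.2.trans (ENNReal.ofReal_le_ofReal (le_abs_self _)))
      (mul_le_mul_right (pub_hardy hΩ hα hcos hinv hGt hst) _)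
  refine pub_form hΩ hν hT hu hK hp hp4 h4 hw hg' (K' := 2 * K + 4) (by positivity) ?_
  filter_upwards [hyp, hw0, hg0, ae_restrict_mem measurableSet_Ioo] with t ht hwt hgt htI
  filter_upwards [hyp, hw0, hg0, ae_restrict_mem measurableSet_Ioo] with s hs hws hgs hsI
  filter_upwards [ht, hs, ae_restrict_mem hΩm] with x hx hy hxΩ
  set a : R3 := (u s).fn x with ha
  set b : R3 := (u t).fn x with hb
  set z : Mat := (G s).fn x with hz
  set m := modulus p u s t with hm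
  have hm0 : 0 ≤ m := modulus_nonneg p u s t
  have n1 := norm_nonneg a
  have n2 := norm_nonneg b
  have n3 := norm_nonneg z
  have w1 := hws x
  have w2 := hwt x
  have g1 := hgs x
  have g2 := hgt x
  obtain ⟨v1, v1'⟩ := hd s hsI x hxΩ
  obtain ⟨v2, v2'⟩ := hd t htI x hxΩ
  have v3 := hd2 s hsI t htI x hxΩ
  have s1 := Real.sqrt_nonneg (horSq a)
  have s2 := Real.sqrt_nonneg (horSq b)
  have l1 := sqrt_hor_le a
  have l2 := sqrt_hor_le b
  have x1 : √(horSq a) ^ 2 = horSq a := Real.sq_sqrt (horSq_nonneg a)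
  have x2 : √(horSq b) ^ 2 = horSq b := Real.sq_sqrt (horSq_nonneg b)
  have hq : 0 ≤ K / horSq x := div_nonneg hK (horSq_nonneg x)
  have y1 : 2 * K * (horSq a / horSq x) = 2 * (K / horSq x * √(horSq a) ^ 2) := by
    rw [x1]; ring
  have y2 : 2 * K * (horSq b / horSq x) = 2 * (K / horSq x * √(horSq b) ^ 2) := by
    rw [x2]; ring
  have q1 : 0 ≤ ‖z‖ ^ 2 + ‖(G t).fn x‖ ^ 2 := by positivity
  have q2 : 0 ≤ (w s x + w t x) * (‖a‖ ^ 2 + ‖b‖ ^ 2) := by positivity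
  have q3 : 0 ≤ m * (‖z‖ * (‖a‖ * ‖b‖)) := by positivity
  have q4 : 0 ≤ K / horSq x * √(horSq a) ^ 2 := by positivity
  have q5 : 0 ≤ K / horSq x * √(horSq b) ^ 2 := by positivity
  have r1 : 0 ≤ K * (‖z‖ ^ 2 + ‖(G t).fn x‖ ^ 2) := by positivity
  have r2' : 0 ≤ K * ((w s x + w t x) * (‖a‖ ^ 2 + ‖b‖ ^ 2)) := by positivity
  have r3 : 0 ≤ ‖(G t).fn x‖ ^ 2 := by positivity
  have r4 : 0 ≤ K * (m * (‖z‖ * (‖a‖ * ‖b‖))) := by positivity
  have fin : ∀ c : ℝ, c ≤ 2 * (K * m) * (‖z‖ * (‖a‖ * ‖b‖)) + 4 * (‖z‖ ^ 2)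
      + 2 * (K / horSq x * √(horSq a) ^ 2 + K / horSq x * √(horSq b) ^ 2)
      + 2 * ((w s x + w t x) * (‖a‖ ^ 2 + ‖b‖ ^ 2)) →
      c ≤ (2 * K + 4) * (m * (‖z‖ * (‖a‖ * ‖b‖)) + (‖z‖ ^ 2 + ‖(G t).fn x‖ ^ 2)
        + (w s x + w t x) * (‖a‖ ^ 2 + ‖b‖ ^ 2))
        + (g s x + 2 * K * (horSq a / horSq x) + (g t x + 2 * K * (horSq b / horSq x))) := by
    intro c hc
    rw [y1, y2]
    refine hc.trans ?_
    nlinarith
  have h2 := wedge_eq a b
  have h3 : ⟪alt a b, z⟫_ℝ = ⟪z, wedge a b⟫_ℝ := by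
    rw [← h2]
    exact real_inner_comm _ _
  obtain ⟨i, hi⟩ := mem_iUnion.1 (hA hxΩ)
  fin_cases i
  · -- fourth powers
    have e1 := hx.1 hi
    have e2 := hy.1 hi
    have h5 := abs_trip_le z a b (norm_alt_le (a : H772R2.NS.E3) (b : H772R2.NS.E3))
    have h5' : |⟪z, wedge a b⟫_ℝ| ≤ ‖z‖ * (2 * (‖a‖ * ‖b‖)) := h5
    refine h5'.trans ?_
    have h6 : ‖z‖ * (2 * (‖a‖ * ‖b‖)) ≤ 2 * ‖z‖ ^ 2 + (g s x + g t x) := by
      have a1 : (‖a‖ * ‖b‖) ^ 2 ≤ (‖a‖ ^ 4 + ‖b‖ ^ 4) / 2 := by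
        nlinarith [sq_nonneg (‖a‖ ^ 2 - ‖b‖ ^ 2)]
      nlinarith [sq_nonneg (‖z‖ - ‖a‖ * ‖b‖), sq_nonneg (‖z‖), sq_nonneg (‖a‖ * ‖b‖)]
    rw [y1, y2]
    nlinarith
  · -- two components
    have e1 := hx.2.1 hi
    have e2 := hy.2.1 hi
    have h5 := norm_alt_hor (a := a) (b := b) (n := e 2) (norm_e1 2) v1 v2
      v1' v2' v3
    have h6 := abs_trip_le z a b h5
    refine fin _ (h6.trans ?_)
    have t1 := norm_hor a
    have t2 := norm_hor b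
    have h7 := arith_h (γ := ‖z‖) (κ := K * m) s1 s2 l1 l2 w1 w2 e2 e1
    refine le_trans (le_of_eq ?_) h7
    show ‖z‖ * (2 * (K * m) * ‖a‖ * ‖b‖
        + 4 * (‖a - ⟪a, e 2⟫_ℝ • e 2‖ * ‖perp (d t x) b‖)
        + 4 * (‖perp (d s x) a‖ * ‖b - ⟪b, e 2⟫_ℝ • e 2‖)) = _
    rw [t1, t2]
  · -- the vertical components
    obtain ⟨e1, e1'⟩ := hx.2.2 hi
    obtain ⟨e2, e2'⟩ := hy.2.2 hi
    have h5 : |⟪z, wedge a b⟫_ℝ| ≤ |⟪curl z, e 2⟫_ℝ| * (√(horSq a) * √(horSq b))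
        + 2 * ‖z‖ * (|⟪a, e 2⟫_ℝ| * √(horSq b) + |⟪b, e 2⟫_ℝ| * √(horSq a)) := by
      have i1 := inner_e2 a
      have i2 := inner_e2 b
      have i3 := inner_e2 (curl z)
      have j1 := horSq_eq a
      have j2 := horSq_eq b
      have k := trip_vert z a b
      rw [← i1, ← i2, ← j1, ← j2] at k
      rw [← h3]
      refine k.trans (le_of_eq ?_)
      exact congrArg (fun r => |r| * (√(horSq a) * √(horSq b))
        + 2 * ‖z‖ * (|⟪a, e 2⟫_ℝ| * √(horSq b) + |⟪b, e 2⟫_ℝ| * √(horSq a))) i3.symm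
    refine fin _ (h5.trans ?_)
    have h7 := arith_v (γ := ‖z‖) (α := |⟪a, e 2⟫_ℝ|) (β := |⟪b, e 2⟫_ℝ|) s1 s2 l1 l2 hq w1 w2 e2'
      (by rw [sq_abs]; exact e2) (by rw [sq_abs]; exact e1)
    have r5 : 0 ≤ 2 * (K * m) * (‖z‖ * (‖a‖ * ‖b‖)) := by positivity
    linarith

end Pool.Agent.P8H36.EE
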