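import Pool.Agent.P8H36.EE.Form
import Pool.Agent.P8H70.EC.Main

/-!
The two-time criterion with form bounded potentials.
-/

set_option autoImplicit false
set_option linter.unusedSectionVars false

open MeasureTheory Set Filter Topology
open scoped InnerProductSpace ENNReal ContDiff NNReal

namespace Pool.Agent.P8H36.EE

open H772R2.NS Pool.Agent.TH301.EQ Pool.Agent.R772.LI

variable {Ω : Set E3}

/-- the norm of an element of `L²` as an integral -/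
theorem lint_sq {E : Type} [NormedAddCommGroup E] (v : Lp E 2 (volume.restrict Ω)) :
    ∫⁻ x in Ω, ENNReal.ofReal (‖v x‖ ^ 2) = ENNReal.ofReal (‖v‖ ^ 2) := by
  have h1 : ‖v‖ₑ = (∫⁻ x in Ω, ‖v x‖ₑ ^ (2 : ℝ)) ^ (1 / (2 : ℝ)) := by
    rw [Lp.enorm_def, eLpNorm_eq_lintegral_rpow_enorm_toReal (by norm_num) (by norm_num)]
    simp only [ENNReal.toReal_ofNat]
  have h2 : ‖v‖ₑ ^ (2 : ℝ) = ∫⁻ x in Ω, ‖v x‖ₑ ^ (2 : ℝ) := by
    rw [h1, ← ENNReal.rpow_mul]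
    norm_num
  have h3 : ∀ y : E, ENNReal.ofReal (‖y‖ ^ 2) = ‖y‖ₑ ^ (2 : ℝ) := fun y => by
    rw [ENNReal.ofReal_pow (norm_nonneg _), ofReal_norm, ← ENNReal.rpow_natCast]
    norm_num
  simp_rw [h3]
  rw [← h2, ENNReal.ofReal_pow (norm_nonneg _), ofReal_norm, ← ENNReal.rpow_natCast]
  norm_num

/-- the trilinear form from a pointwise bound of the triple product -/
theorem tri_bound (hΩ : MeasurableSet Ω) {p q : L2V Ω × L2M Ω} (hp : p ∈ graphW Ω)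
    (hq : q ∈ graphW Ω) {w g : E3 → ℝ} {k K A₁ A₂ A₃ : ℝ} (hk : 0 ≤ k) (hK : 0 ≤ K)
    (hA₁ : 0 ≤ A₁) (hA₂ : 0 ≤ A₂) (hA₃ : 0 ≤ A₃)
    (mw : AEMeasurable w (volume.restrict Ω)) (mg : AEMeasurable g (volume.restrict Ω))
    (hw0 : ∀ x, 0 ≤ w x) (hg0 : ∀ x, 0 ≤ g x)
    (hw1 : ∫⁻ x in Ω, ENNReal.ofReal (w x * ‖p.1 x‖ ^ 2) ≤ ENNReal.ofReal A₁)
    (hw2 : ∫⁻ x in Ω, ENNReal.ofReal (w x * ‖q.1 x‖ ^ 2) ≤ ENNReal.ofReal A₂)
    (hg1 : ∫⁻ x in Ω, ENNReal.ofReal (g x) ≤ ENNReal.ofReal A₃)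
    (h : ∀ᵐ x ∂(volume.restrict Ω), |⟪alt (p.1 x) (q.1 x), p.2 x⟫_ℝ|
      ≤ ‖p.2 x‖ * (k * (‖p.1 x‖ * ‖q.1 x‖)) + K * (‖p.2 x‖ ^ 2 + ‖q.2 x‖ ^ 2)
        + K * (w x * (‖p.1 x‖ ^ 2 + ‖q.1 x‖ ^ 2)) + g x) :
    |⟪tensL p.1, q.2⟫_ℝ|
      ≤ ‖p.2‖ * (k * (n4 p.1 * n4 q.1)) + K * (‖p.2‖ ^ 2 + ‖q.2‖ ^ 2) + K * (A₁ + A₂) + A₃ := by
  set μ : Measure E3 := volume.restrict Ω with hμ
  have mf : AEStronglyMeasurable (p.1 : E3 → E3) μ := Lp.aestronglyMeasurable p.1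
  have mh : AEStronglyMeasurable (q.1 : E3 → E3) μ := Lp.aestronglyMeasurable q.1
  have mz : AEStronglyMeasurable (p.2 : E3 → M3) μ := Lp.aestronglyMeasurable p.2
  have mz' : AEStronglyMeasurable (q.2 : E3 → M3) μ := Lp.aestronglyMeasurable q.2
  set F1 : E3 → ℝ := fun x => k * (‖p.1 x‖ * ‖q.1 x‖) with hF1
  have m1 : AEStronglyMeasurable F1 μ := (mf.norm.mul mh.norm).const_mul k
  have g4 : ⟪tensL p.1, q.2⟫_ℝ = ∫ x in Ω, ⟪alt (p.1 x) (q.1 x), p.2 x⟫_ℝ := by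
    rw [identity hΩ hp hq, L2.inner_def]
    apply integral_congr_ae
    filter_upwards [altL_coe hΩ hp hq] with x hx
    rw [hx]
  have s1 : ‖⟪tensL p.1, q.2⟫_ℝ‖ₑ
      ≤ ∫⁻ x, (‖‖p.2 x‖ * F1 x‖ₑ + (ENNReal.ofReal K * (ENNReal.ofReal (‖p.2 x‖ ^ 2)
          + ENNReal.ofReal (‖q.2 x‖ ^ 2))
        + (ENNReal.ofReal K * (ENNReal.ofReal (w x * ‖p.1 x‖ ^ 2)
          + ENNReal.ofReal (w x * ‖q.1 x‖ ^ 2)) + ENNReal.ofReal (g x)))) ∂μ := by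
    rw [g4]
    refine (enorm_integral_le_lintegral_enorm _).trans (lintegral_mono_ae ?_)
    filter_upwards [h] with x hx
    have a2 : 0 ≤ ‖p.2 x‖ * F1 x := by
      simp only [hF1]
      positivity
    have b1 := hw0 x
    have b2 := hg0 x
    have d1 : 0 ≤ ‖p.2 x‖ ^ 2 := sq_nonneg _
    have d2 : 0 ≤ ‖q.2 x‖ ^ 2 := sq_nonneg _
    have d3 : 0 ≤ w x * ‖p.1 x‖ ^ 2 := mul_nonneg b1 (sq_nonneg _)
    have d4 : 0 ≤ w x * ‖q.1 x‖ ^ 2 := mul_nonneg b1 (sq_nonneg _)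
    have d5 : 0 ≤ K * (w x * ‖p.1 x‖ ^ 2 + w x * ‖q.1 x‖ ^ 2) := mul_nonneg hK (add_nonneg d3 d4)
    have d6 : 0 ≤ K * (‖p.2 x‖ ^ 2 + ‖q.2 x‖ ^ 2) := mul_nonneg hK (add_nonneg d1 d2)
    have a3 : ‖‖p.2 x‖ * F1 x‖ₑ + (ENNReal.ofReal K * (ENNReal.ofReal (‖p.2 x‖ ^ 2)
          + ENNReal.ofReal (‖q.2 x‖ ^ 2))
        + (ENNReal.ofReal K * (ENNReal.ofReal (w x * ‖p.1 x‖ ^ 2)
          + ENNReal.ofReal (w x * ‖q.1 x‖ ^ 2)) + ENNReal.ofReal (g x)))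
        = ENNReal.ofReal (‖p.2 x‖ * F1 x + (K * (‖p.2 x‖ ^ 2 + ‖q.2 x‖ ^ 2)
          + (K * (w x * ‖p.1 x‖ ^ 2 + w x * ‖q.1 x‖ ^ 2) + g x))) := by
      rw [Real.enorm_eq_ofReal a2, ENNReal.ofReal_add a2 (add_nonneg d6 (add_nonneg d5 b2)),
        ENNReal.ofReal_add d6 (add_nonneg d5 b2), ENNReal.ofReal_add d5 b2,
        ENNReal.ofReal_mul hK, ENNReal.ofReal_mul hK, ENNReal.ofReal_add d1 d2,
        ENNReal.ofReal_add d3 d4]
    rw [a3, ← ofReal_norm, Real.norm_eq_abs]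
    refine ENNReal.ofReal_le_ofReal (hx.trans (le_of_eq ?_))
    simp only [hF1]
    ring
  have q1 : AEMeasurable (fun x => ‖‖p.2 x‖ * F1 x‖ₑ) μ := (mz.norm.mul m1).enorm
  have q2 : AEMeasurable (fun x => ENNReal.ofReal (‖p.2 x‖ ^ 2)) μ :=
    ((mz.norm.aemeasurable).pow_const 2).ennreal_ofReal
  have q3 : AEMeasurable (fun x => ENNReal.ofReal (‖q.2 x‖ ^ 2)) μ :=
    ((mz'.norm.aemeasurable).pow_const 2).ennreal_ofReal
  have q4 : AEMeasurable (fun x => ENNReal.ofReal (w x * ‖p.1 x‖ ^ 2)) μ :=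
    (mw.mul ((mf.norm.aemeasurable).pow_const 2)).ennreal_ofReal
  have q5 : AEMeasurable (fun x => ENNReal.ofReal (w x * ‖q.1 x‖ ^ 2)) μ :=
    (mw.mul ((mh.norm.aemeasurable).pow_const 2)).ennreal_ofReal
  have q6 : AEMeasurable (fun x => ENNReal.ofReal K * (ENNReal.ofReal (‖p.2 x‖ ^ 2)
      + ENNReal.ofReal (‖q.2 x‖ ^ 2))) μ := (q2.add q3).const_mul _
  have q7 : AEMeasurable (fun x => ENNReal.ofReal K * (ENNReal.ofReal (w x * ‖p.1 x‖ ^ 2)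
      + ENNReal.ofReal (w x * ‖q.1 x‖ ^ 2))) μ := (q4.add q5).const_mul _
  have s2 : ∫⁻ x, (‖‖p.2 x‖ * F1 x‖ₑ + (ENNReal.ofReal K * (ENNReal.ofReal (‖p.2 x‖ ^ 2)
          + ENNReal.ofReal (‖q.2 x‖ ^ 2))
        + (ENNReal.ofReal K * (ENNReal.ofReal (w x * ‖p.1 x‖ ^ 2)
          + ENNReal.ofReal (w x * ‖q.1 x‖ ^ 2)) + ENNReal.ofReal (g x)))) ∂μ
      = ∫⁻ x, ‖‖p.2 x‖ * F1 x‖ₑ ∂μ + (ENNReal.ofReal K * (ENNReal.ofReal (‖p.2‖ ^ 2)
          + ENNReal.ofReal (‖q.2‖ ^ 2))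
        + (ENNReal.ofReal K * (∫⁻ x, ENNReal.ofReal (w x * ‖p.1 x‖ ^ 2) ∂μ
          + ∫⁻ x, ENNReal.ofReal (w x * ‖q.1 x‖ ^ 2) ∂μ) + ∫⁻ x, ENNReal.ofReal (g x) ∂μ)) := by
    rw [lintegral_add_left' q1, lintegral_add_left' q6,
      lintegral_add_left' q7, lintegral_const_mul' _ _ ENNReal.ofReal_ne_top,
      lintegral_const_mul' _ _ ENNReal.ofReal_ne_top, lintegral_add_left' q2,
      lintegral_add_left' q4, lint_sq, lint_sq]
  have s3 : ∫⁻ x, ‖‖p.2 x‖ * F1 x‖ₑ ∂μ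
      ≤ ‖p.2‖ₑ * (ENNReal.ofReal k * (eLpNorm p.1 4 μ * eLpNorm q.1 4 μ)) := by
    have a2 := eLpNorm_le_eLpNorm_mul_eLpNorm'_of_norm (p := 2) (q := 2) (r := 1) mz.norm m1
      (fun a b => a * b) 1 (Eventually.of_forall (fun x => by
        rw [norm_mul]; simp)) (μ := μ)
    rw [ENNReal.coe_one, one_mul, eLpNorm_norm, eLpNorm_one_eq_lintegral_enorm] at a2
    have e1 : eLpNorm F1 2 μ = ENNReal.ofReal k * eLpNorm (fun x => ‖p.1 x‖ * ‖q.1 x‖) 2 μ := by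
      have := eLpNorm_const_smul k (fun x => ‖p.1 x‖ * ‖q.1 x‖) 2 μ
      rw [Real.enorm_eq_ofReal hk] at this
      exact this
    have g3 : eLpNorm p.2 2 μ = ‖p.2‖ₑ := (Lp.enorm_def _).symm
    rw [g3, e1] at a2
    exact a2.trans (mul_le_mul_right (mul_le_mul_right (eLpNorm_mul_le mf mh) _) _)
  have s6 : ‖⟪tensL p.1, q.2⟫_ℝ‖ₑ
      ≤ ‖p.2‖ₑ * (ENNReal.ofReal k * (eLpNorm p.1 4 μ * eLpNorm q.1 4 μ))
        + ENNReal.ofReal (K * (‖p.2‖ ^ 2 + ‖q.2‖ ^ 2) + K * (A₁ + A₂) + A₃) := by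
    rw [s2] at s1
    refine s1.trans (add_le_add s3 ?_)
    rw [← ENNReal.ofReal_add (by positivity) (by positivity), ← ENNReal.ofReal_mul hK]
    have r1 : ∫⁻ x, ENNReal.ofReal (w x * ‖p.1 x‖ ^ 2) ∂μ
        + ∫⁻ x, ENNReal.ofReal (w x * ‖q.1 x‖ ^ 2) ∂μ ≤ ENNReal.ofReal (A₁ + A₂) := by
      rw [ENNReal.ofReal_add hA₁ hA₂]
      exact add_le_add hw1 hw2
    calc ENNReal.ofReal (K * (‖p.2‖ ^ 2 + ‖q.2‖ ^ 2))
          + (ENNReal.ofReal K * (∫⁻ x, ENNReal.ofReal (w x * ‖p.1 x‖ ^ 2) ∂μ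
          + ∫⁻ x, ENNReal.ofReal (w x * ‖q.1 x‖ ^ 2) ∂μ) + ∫⁻ x, ENNReal.ofReal (g x) ∂μ)
        ≤ ENNReal.ofReal (K * (‖p.2‖ ^ 2 + ‖q.2‖ ^ 2))
          + (ENNReal.ofReal K * ENNReal.ofReal (A₁ + A₂) + ENNReal.ofReal A₃) := by gcongr
      _ = _ := by
        rw [← ENNReal.ofReal_mul hK, ← ENNReal.ofReal_add (by positivity) (by positivity),
          ← ENNReal.ofReal_add (by positivity) (by positivity)]
        congr 1
        ring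
  have t1 : ‖p.2‖ₑ * (ENNReal.ofReal k * (eLpNorm p.1 4 μ * eLpNorm q.1 4 μ)) < ⊤ :=
    ENNReal.mul_lt_top enorm_lt_top (ENNReal.mul_lt_top ENNReal.ofReal_lt_top
      (ENNReal.mul_lt_top (four_lt_top hΩ hp) (four_lt_top hΩ hq)))
  have s7 := ENNReal.toReal_mono (ENNReal.add_lt_top.2 ⟨t1, ENNReal.ofReal_lt_top⟩).ne s6
  rw [ENNReal.toReal_add t1.ne ENNReal.ofReal_ne_top, ENNReal.toReal_ofReal (by positivity)] at s7
  simp only [ENNReal.toReal_mul, ENNReal.toReal_ofReal hk, toReal_enorm, Real.norm_eq_abs] at s7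
  refine s7.trans (le_of_eq ?_)
  show ‖p.2‖ * (k * (n4 p.1 * n4 q.1)) + (K * (‖p.2‖ ^ 2 + ‖q.2‖ ^ 2) + K * (A₁ + A₂) + A₃) = _
  ring

variable {ν T : ℝ} {u : ℝ → L2V Ω} {G : ℝ → L2M Ω} {f : ℝ → L2V Ω}

/-- **Energy equality from the triple products at two times.** -/
theorem main (hΩ : IsOpen Ω) {K p κ : ℝ} (hν : 0 ≤ ν) (hT : 0 < T)
    (h : IsWeakSolution Ω ν T u G f) (hK : 0 ≤ K) (hκ : 0 ≤ κ) (hp : 8 / 3 ≤ p) (hp4 : p ≤ 4)
    (h4 : IntegrableOn (fun t => n4 (u t) ^ p) (Ioo 0 T))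
    {w g : ℝ → E3 → ℝ} {B b : ℝ → ℝ} (hB0 : ∀ t, 0 ≤ B t) (hb0 : ∀ t, 0 ≤ b t)
    (hB : IntegrableOn B (Ioo 0 T)) (hb : IntegrableOn b (Ioo 0 T))
    (hw : ∀ᵐ t ∂(volume.restrict (Ioo 0 T)), AEMeasurable (w t) (volume.restrict Ω) ∧
      (∀ x, 0 ≤ w t x) ∧ ∀ q ∈ graphW Ω, ∫⁻ x in Ω, ENNReal.ofReal (w t x * ‖q.1 x‖ ^ 2)
        ≤ ENNReal.ofReal (κ * ‖q.2‖ ^ 2 + B t * ‖q.1‖ ^ 2))
    (hg : ∀ᵐ t ∂(volume.restrict (Ioo 0 T)), AEMeasurable (g t) (volume.restrict Ω) ∧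
      (∀ x, 0 ≤ g t x) ∧ ∫⁻ x in Ω, ENNReal.ofReal (g t x) ≤ ENNReal.ofReal (b t))
    (hyp : ∀ᵐ t ∂(volume.restrict (Ioo 0 T)), ∀ᵐ s ∂(volume.restrict (Ioo 0 T)),
      ∀ᵐ x ∂(volume.restrict Ω), |⟪alt (u s x) (u t x), G s x⟫_ℝ|
        ≤ ‖G s x‖ * (K * (|s - t| ^ (2 / p - 1 / 2) + n4 (u s) ^ (p / 2 - 2)
          + n4 (u t) ^ (p / 2 - 2)) * (‖u s x‖ * ‖u t x‖))
          + K * (‖G s x‖ ^ 2 + ‖G t x‖ ^ 2)
          + K * ((w s x + w t x) * (‖u s x‖ ^ 2 + ‖u t x‖ ^ 2)) + (g s x + g t x)) :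
    ∀ t ∈ Icc 0 T, energyDefect ν u G f t = 0 := by
  obtain ⟨M, hM⟩ := h.bdd
  have hM0 : 0 ≤ M := (norm_nonneg _).trans (hM 0 ⟨le_rfl, hT.le⟩)
  have hG2 : Integrable (fun t => ‖G t‖ ^ 2) (volume.restrict (Ioo 0 T)) :=
    (memLp_two_iff_integrable_sq_norm h.gradL2.aestronglyMeasurable).mp h.gradL2
  have h4' : Integrable (fun t => n4 (u t) ^ p) (volume.restrict (Ioo 0 T)) := h4
  have hB' : Integrable B (volume.restrict (Ioo 0 T)) := hB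
  have hb' : Integrable b (volume.restrict (Ioo 0 T)) := hb
  set D : ℝ → ℝ := fun t => ‖G t‖ ^ 2 + n4 (u t) ^ p + (B t + b t) with hD
  have hn0 : ∀ t, 0 ≤ n4 (u t) := fun t => ENNReal.toReal_nonneg
  have hD0 : ∀ t, 0 ≤ D t := fun t => by
    have h1 := hB0 t
    have h1' := hb0 t
    have h2 := Real.rpow_nonneg (hn0 t) p
    have h3 : 0 ≤ ‖G t‖ ^ 2 := by positivity
    simp only [hD]
    linarith
  have hDi : Integrable D (volume.restrict (Ioo 0 T)) := (hG2.add h4').add (hB'.add hb')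
  set Q : ℝ := K + K * (4 * κ + 4 * M ^ 2) + 1 with hQ
  have hQ0 : 0 ≤ Q := by positivity
  set C1 : ℝ := 3 * K + Q with hC1
  have hC10 : 0 ≤ C1 := by positivity
  have hp0 : 0 < p := by linarith
  have hip : 1 / p ≤ 3 / 8 := by
    rw [div_le_iff₀ hp0]; linarith
  have hip4 : 1 / 4 ≤ 1 / p := one_div_le_one_div_of_le hp0 hp4
  set θ : ℝ := 2 / p - 1 / 2 with hθ
  have hθp : θ = 2 * (1 / p) - 1 / 2 := by rw [hθ]; ring
  have hθ0 : 0 ≤ θ := by rw [hθp]; linarith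
  refine energy_eq_two hΩ hν hT h hM (ψ := fun t => (1 + C1) * D t)
    (fun t => mul_nonneg (by linarith) (hD0 t)) (hDi.const_mul (1 + C1)) ?_
  filter_upwards [h.grad, hw, hg, hyp, ae_restrict_mem measurableSet_Ioo] with t ht hwt hgt hyt htI
  filter_upwards [h.grad, hw, hg, hyt, ae_restrict_mem measurableSet_Ioo] with s hs hws hgs hys hsI
  have hWt : (u t, G t) ∈ graphW Ω := mem_graphW.mpr ht
  have hWs : (u s, G s) ∈ graphW Ω := mem_graphW.mpr hs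
  set L : ℝ := |s - t| with hL
  have hL0 : 0 ≤ L := abs_nonneg _
  set m : ℝ := L ^ θ + n4 (u s) ^ (p / 2 - 2) + n4 (u t) ^ (p / 2 - 2) with hm
  have hm0 : 0 ≤ m := by
    have h1 := Real.rpow_nonneg (hn0 s) (p / 2 - 2)
    have h2 := Real.rpow_nonneg (hn0 t) (p / 2 - 2)
    positivity
  have hk : 0 ≤ K * m := by positivity
  have b1 := hB0 s
  have b2 := hB0 t
  have b3 := hb0 s
  have b4 := hb0 t
  have wsum : ∀ v : L2V Ω, ∀ z : L2M Ω, (v, z) ∈ graphW Ω →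
      ∫⁻ x in Ω, ENNReal.ofReal ((w s x + w t x) * ‖v x‖ ^ 2)
      ≤ ENNReal.ofReal (2 * κ * ‖z‖ ^ 2 + (B s + B t) * ‖v‖ ^ 2) := by
    intro v z hv
    have e1 : ∀ x, ENNReal.ofReal ((w s x + w t x) * ‖v x‖ ^ 2)
        = ENNReal.ofReal (w s x * ‖v x‖ ^ 2) + ENNReal.ofReal (w t x * ‖v x‖ ^ 2) := fun x => by
      have a1 := hws.2.1 x
      have a2 := hwt.2.1 x
      rw [← ENNReal.ofReal_add (by positivity) (by positivity)]
      congr 1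
      ring
    simp_rw [e1]
    have mv : AEMeasurable (fun x => ENNReal.ofReal (w s x * ‖v x‖ ^ 2)) (volume.restrict Ω) :=
      (hws.1.mul (((Lp.aestronglyMeasurable v).norm.aemeasurable).pow_const 2)).ennreal_ofReal
    rw [lintegral_add_left' mv]
    refine (add_le_add (hws.2.2 _ hv) (hwt.2.2 _ hv)).trans (le_of_eq ?_)
    rw [← ENNReal.ofReal_add (by positivity) (by positivity)]
    congr 1
    ring
  have k3 := tri_bound hΩ.measurableSet hWs hWt (w := fun x => w s x + w t x)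
    (g := fun x => g s x + g t x) (k := K * m) (K := K)
    (A₁ := 2 * κ * ‖G s‖ ^ 2 + (B s + B t) * ‖u s‖ ^ 2)
    (A₂ := 2 * κ * ‖G t‖ ^ 2 + (B s + B t) * ‖u t‖ ^ 2) (A₃ := b s + b t) hk hK
    (by positivity) (by positivity) (by positivity)
    (hws.1.add hwt.1) (hgs.1.add hgt.1) (fun x => add_nonneg (hws.2.1 x) (hwt.2.1 x))
    (fun x => add_nonneg (hgs.2.1 x) (hgt.2.1 x)) (wsum _ _ hWs) (wsum _ _ hWt)
    (by
      have e1 : ∀ x, ENNReal.ofReal (g s x + g t x)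
          = ENNReal.ofReal (g s x) + ENNReal.ofReal (g t x) := fun x =>
        ENNReal.ofReal_add (hgs.2.1 x) (hgt.2.1 x)
      simp_rw [e1]
      rw [lintegral_add_left' hgs.1.ennreal_ofReal, ENNReal.ofReal_add b3 b4]
      exact add_le_add hgs.2.2 hgt.2.2)
    hys
  simp only at k3
  set X : ℝ := D s with hX
  set Y : ℝ := D t with hY
  have hX0 : 0 ≤ X := hD0 s
  have hY0 : 0 ≤ Y := hD0 t
  -- the roots
  have rG : ∀ r, ‖G r‖ ≤ D r ^ (1 / 2 : ℝ) := fun r => by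
    refine le_root_two (norm_nonneg _) ?_
    have h1 := hB0 r
    have h1' := hb0 r
    have h2 := Real.rpow_nonneg (hn0 r) p
    simp only [hD]
    linarith
  have rn : ∀ r, n4 (u r) ≤ D r ^ (1 / p) := fun r => by
    refine le_root (hn0 r) hp0 ?_
    have h1 := hB0 r
    have h1' := hb0 r
    have h2 : 0 ≤ ‖G r‖ ^ 2 := by positivity
    simp only [hD]
    linarith
  have hXh : 0 ≤ X ^ (1 / 2 : ℝ) := Real.rpow_nonneg hX0 _
  have rn2 : ∀ r, n4 (u r) * n4 (u r) ^ (p / 2 - 2) ≤ D r ^ (1 / 2 - 1 / p) := fun r => by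
    have e1 : p / 2 - 2 + 1 = p / 2 - 1 := by ring
    have a1 := mul_rpow_le (e := p / 2 - 2) (hn0 r) (by linarith)
    rw [e1] at a1
    refine a1.trans ?_
    have e2 : D r ^ (1 / 2 - 1 / p) = (D r ^ (1 / p)) ^ (p / 2 - 1) := by
      rw [← Real.rpow_mul (hD0 r)]
      congr 1
      field_simp
    rw [e2]
    exact Real.rpow_le_rpow (hn0 r) (rn r) (by linarith)
  have T1 : ‖G s‖ * (K * m * (n4 (u s) * n4 (u t)))
      ≤ K * (X + Y + L * (X * Y)) + K * (X + Y) + K * (X + Y) := by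
    have y1 := young_step hX0 hY0 hL0 (α := 1 - 1 / p) (β := 1 / 2 - 1 / p) (δ := θ)
      (by linarith) (by linarith) hθ0 (by rw [hθp]; ring)
    have e1 : (1 - 1 / p) + θ = 1 / 2 + 1 / p := by rw [hθp]; ring
    have e2 : (1 / 2 - 1 / p) + θ = 1 / p := by rw [hθp]; ring
    rw [e1, e2, Real.rpow_add_of_nonneg hX0 (by norm_num) (by positivity)] at y1
    have y2 := young_two hX0 hY0 (α := 1 / 2 + (1 / 2 - 1 / p)) (β := 1 / p) (by linarith)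
      (by positivity) (by ring)
    rw [Real.rpow_add_of_nonneg hX0 (by norm_num) (by linarith)] at y2
    have y3 := young_two hX0 hY0 (α := 1 / 2 + 1 / p) (β := 1 / 2 - 1 / p) (by positivity)
      (by linarith) (by ring)
    rw [Real.rpow_add_of_nonneg hX0 (by norm_num) (by positivity)] at y3
    have a1 : ‖G s‖ * n4 (u s) * n4 (u t) * L ^ θ ≤ X + Y + L * (X * Y) := by
      refine le_trans ?_ y1
      refine mul_le_mul_of_nonneg_right ?_ (by positivity)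
      exact mul_le_mul (mul_le_mul (rG s) (rn s) (hn0 s) hXh) (rn t) (hn0 t) (by positivity)
    have hns := hn0 s
    have hnt := hn0 t
    have a2 : ‖G s‖ * (n4 (u s) * n4 (u s) ^ (p / 2 - 2)) * n4 (u t) ≤ X + Y := by
      refine le_trans ?_ y2
      exact mul_le_mul (mul_le_mul (rG s) (rn2 s) (by positivity) hXh) (rn t) (hn0 t)
        (by positivity)
    have a3 : ‖G s‖ * n4 (u s) * (n4 (u t) * n4 (u t) ^ (p / 2 - 2)) ≤ X + Y := by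
      refine le_trans ?_ y3
      exact mul_le_mul (mul_le_mul (rG s) (rn s) (hn0 s) hXh) (rn2 t) (by positivity)
        (by positivity)
    have e3 : ‖G s‖ * (K * m * (n4 (u s) * n4 (u t)))
        = K * (‖G s‖ * n4 (u s) * n4 (u t) * L ^ θ)
          + K * (‖G s‖ * (n4 (u s) * n4 (u s) ^ (p / 2 - 2)) * n4 (u t))
          + K * (‖G s‖ * n4 (u s) * (n4 (u t) * n4 (u t) ^ (p / 2 - 2))) := by
      rw [hm]; ring
    rw [e3]
    exact add_le_add (add_le_add (mul_le_mul_of_nonneg_left a1 hK)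
      (mul_le_mul_of_nonneg_left a2 hK)) (mul_le_mul_of_nonneg_left a3 hK)
  have hus : ‖u s‖ ^ 2 ≤ M ^ 2 :=
    pow_le_pow_left₀ (norm_nonneg _) (hM s (Ioo_subset_Icc_self hsI)) 2
  have hut : ‖u t‖ ^ 2 ≤ M ^ 2 :=
    pow_le_pow_left₀ (norm_nonneg _) (hM t (Ioo_subset_Icc_self htI)) 2
  have gX : ‖G s‖ ^ 2 + B s + b s ≤ X := by
    have h2 := Real.rpow_nonneg (hn0 s) p
    simp only [hX, hD]
    linarith
  have gY : ‖G t‖ ^ 2 + B t + b t ≤ Y := by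
    have h2 := Real.rpow_nonneg (hn0 t) p
    simp only [hY, hD]
    linarith
  have T2 : K * (‖G s‖ ^ 2 + ‖G t‖ ^ 2) + K * (2 * κ * ‖G s‖ ^ 2 + (B s + B t) * ‖u s‖ ^ 2
      + (2 * κ * ‖G t‖ ^ 2 + (B s + B t) * ‖u t‖ ^ 2)) + (b s + b t) ≤ Q * (X + Y) := by
    have g1 : 0 ≤ ‖G s‖ ^ 2 := by positivity
    have g2 : 0 ≤ ‖G t‖ ^ 2 := by positivity
    have c1 : (B s + B t) * ‖u s‖ ^ 2 ≤ (B s + B t) * M ^ 2 := by gcongr
    have c2 : (B s + B t) * ‖u t‖ ^ 2 ≤ (B s + B t) * M ^ 2 := by gcongr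
    have c3 : ‖G s‖ ^ 2 + ‖G t‖ ^ 2 ≤ X + Y := by linarith
    have c4 : B s + B t ≤ X + Y := by linarith
    have c5 : b s + b t ≤ X + Y := by linarith
    have c6 : 2 * κ * ‖G s‖ ^ 2 + (B s + B t) * ‖u s‖ ^ 2
      + (2 * κ * ‖G t‖ ^ 2 + (B s + B t) * ‖u t‖ ^ 2) ≤ (4 * κ + 4 * M ^ 2) * (X + Y) := by
      have d1 : 2 * κ * (‖G s‖ ^ 2 + ‖G t‖ ^ 2) ≤ 2 * κ * (X + Y) := by gcongr
      have d2 : 2 * M ^ 2 * (B s + B t) ≤ 2 * M ^ 2 * (X + Y) := by gcongr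
      have d3 : 0 ≤ κ * (X + Y) := by positivity
      have d4 : 0 ≤ M ^ 2 * (X + Y) := by positivity
      linarith
    have c7 := mul_le_mul_of_nonneg_left c3 hK
    have c8 := mul_le_mul_of_nonneg_left c6 hK
    have e1 : Q * (X + Y) = K * (X + Y) + K * ((4 * κ + 4 * M ^ 2) * (X + Y)) + (X + Y) := by
      rw [hQ]; ring
    rw [e1]
    linarith
  have hXY : 0 ≤ L * (X * Y) := by positivity
  have k4 : |⟪tensL (u s), G t⟫_ℝ| ≤ C1 * (X + Y + L * (X * Y)) := by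
    have e2 : C1 * (X + Y + L * (X * Y)) = (K * (X + Y + L * (X * Y)) + K * (X + Y) + K * (X + Y))
        + Q * (X + Y) + (2 * K + Q) * (L * (X * Y)) := by
      rw [hC1]; ring
    rw [e2]
    have e3 : 0 ≤ (2 * K + Q) * (L * (X * Y)) := by positivity
    linarith
  refine k4.trans ?_
  have z1 : C1 * X ≤ (1 + C1) * X := mul_le_mul_of_nonneg_right (by linarith) hX0
  have z2 : C1 * Y ≤ (1 + C1) * Y := mul_le_mul_of_nonneg_right (by linarith) hY0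
  have z3 : C1 * (L * (X * Y)) ≤ L * ((1 + C1) * X * ((1 + C1) * Y)) := by
    have e1 : L * ((1 + C1) * X * ((1 + C1) * Y)) = (1 + C1) ^ 2 * (L * (X * Y)) := by ring
    rw [e1]
    refine mul_le_mul_of_nonneg_right ?_ hXY
    nlinarith
  have e5 : C1 * (X + Y + L * (X * Y)) = C1 * X + C1 * Y + C1 * (L * (X * Y)) := by ring
  rw [e5]
  exact add_le_add (add_le_add z1 z2) z3

end Pool.Agent.P8H36.EE
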